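import Mathlib

/-!
# Numbers `2^i 3^j` in short intervals, in blocks of sixteen
-/

set_option autoImplicit false

namespace Pool.Agent.U766.SN

noncomputable def th (m n : ℤ) : ℝ := m * Real.log 2 + n * Real.log 3

lemma log2_pos : 0 < Real.log 2 := Real.log_pos (by norm_num)
lemma log3_pos : 0 < Real.log 3 := Real.log_pos (by norm_num)

lemma th_ne_zero (q : ℚ) : th q.den (-q.num) ≠ 0 := by
  intro h
  unfold th at h
  have hd : 0 < q.den := q.den_pos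
  have h1 : (q.den : ℝ) * Real.log 2 = q.num * Real.log 3 := by
    push_cast at h
    linarith
  have hnum : 0 < q.num := by
    by_contra hneg
    push Not at hneg
    have h2 : (q.num : ℝ) ≤ 0 := by exact_mod_cast hneg
    have h3 : 0 < (q.den : ℝ) * Real.log 2 := mul_pos (by exact_mod_cast hd) log2_pos
    have h4 : (q.num : ℝ) * Real.log 3 ≤ 0 := mul_nonpos_of_nonpos_of_nonneg h2 log3_pos.le
    linarith
  obtain ⟨n, hn⟩ : ∃ n : ℕ, q.num = n := ⟨q.num.toNat, by omega⟩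
  rw [hn] at h1
  push_cast at h1
  rw [← Real.log_pow, ← Real.log_pow] at h1
  have h2 : (2 : ℝ) ^ q.den = 3 ^ n := Real.log_injOn_pos (by simp) (by simp) h1
  have h3 : 2 ^ q.den = 3 ^ n := by exact_mod_cast h2
  have h4 : 2 ∣ 3 ^ n := by
    rw [← h3]
    exact dvd_pow_self _ hd.ne'
  have := Nat.Prime.dvd_of_dvd_pow Nat.prime_two h4
  omega

/-- a basis of small values -/
theorem basis (κ : ℝ) (hκ : 0 < κ) : ∃ u₁ u₂ v₁ v₂ : ℤ, u₁ * v₂ - u₂ * v₁ = 1 ∧ 0 < th u₁ u₂ ∧ th u₁ u₂ ≤ κ ∧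
    |th v₁ v₂| ≤ κ := by
  obtain ⟨n, hn⟩ := exists_nat_ge (Real.log 3 / κ)
  obtain ⟨q, hq, hqd⟩ := Real.exists_rat_abs_sub_le_and_den_le (Real.log 2 / Real.log 3) (n := n + 1) (by omega)
  have hd : (0 : ℝ) < q.den := by exact_mod_cast q.den_pos
  have h3 := log3_pos
  have small : |th q.den (-q.num)| ≤ κ := by
    have e : th q.den (-q.num) = (Real.log 2 / Real.log 3 - q) * (q.den * Real.log 3) := by
      have hq' : (q : ℝ) * q.den = q.num := by exact_mod_cast Rat.mul_den_eq_num q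
      unfold th
      push_cast
      have : (Real.log 2 / Real.log 3 - q) * (q.den * Real.log 3) =
        q.den * (Real.log 2 / Real.log 3 * Real.log 3) - (q * q.den) * Real.log 3 := by ring
      rw [this, div_mul_cancel₀ _ h3.ne', hq']
      ring
    rw [e, abs_mul, abs_of_pos (by positivity : 0 < (q.den : ℝ) * Real.log 3)]
    have hn1 : Real.log 3 ≤ n * κ := by rwa [div_le_iff₀ hκ] at hn
    calc |Real.log 2 / Real.log 3 - q| * (q.den * Real.log 3)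
        ≤ 1 / (((n + 1 : ℕ) + 1) * q.den) * (q.den * Real.log 3) := by gcongr
      _ = Real.log 3 / ((n + 1 : ℕ) + 1) := by
        field_simp
      _ ≤ κ := by
        rw [div_le_iff₀ (by positivity)]
        push_cast
        nlinarith
  have hcop : IsCoprime (q.den : ℤ) q.num := by
    have := q.reduced
    rw [Int.isCoprime_iff_gcd_eq_one]
    unfold Int.gcd
    simpa [Nat.coprime_comm] using this
  obtain ⟨x, y, hxy⟩ := hcop
  -- a basis with first vector of positive value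
  obtain ⟨u₁, u₂, v₁, v₂, hdet, hu0, hu1⟩ : ∃ u₁ u₂ v₁ v₂ : ℤ, u₁ * v₂ - u₂ * v₁ = 1 ∧ 0 < th u₁ u₂ ∧ th u₁ u₂ ≤ κ := by
    rcases lt_or_gt_of_ne (th_ne_zero q) with h | h
    · refine ⟨-q.den, q.num, -y, -x, by linear_combination hxy, ?_, ?_⟩
      · have : th (-q.den) q.num = - th q.den (-q.num) := by
          unfold th
          push_cast
          ring
        rw [this]
        linarith
      · have : th (-q.den) q.num = - th q.den (-q.num) := by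
          unfold th
          push_cast
          ring
        rw [this]
        rwa [abs_of_neg h] at small
    · refine ⟨q.den, -q.num, y, x, by linear_combination hxy, h, ?_⟩
      rwa [abs_of_pos h] at small
  refine ⟨u₁, u₂, v₁ - ⌊th v₁ v₂ / th u₁ u₂⌋ * u₁, v₂ - ⌊th v₁ v₂ / th u₁ u₂⌋ * u₂,
    by linear_combination hdet, hu0, hu1, ?_⟩
  set m := ⌊th v₁ v₂ / th u₁ u₂⌋ with hm
  have e : th (v₁ - m * u₁) (v₂ - m * u₂) = th v₁ v₂ - m * th u₁ u₂ := by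
    unfold th
    push_cast
    ring
  have h1 : (m : ℝ) ≤ th v₁ v₂ / th u₁ u₂ := Int.floor_le _
  have h2 : th v₁ v₂ / th u₁ u₂ < m + 1 := Int.lt_floor_add_one _
  rw [le_div_iff₀ hu0] at h1
  rw [div_lt_iff₀ hu0] at h2
  rw [e, abs_of_nonneg (by linarith)]
  linarith

/-- every large number is close to a value -/
theorem target (u₁ u₂ : ℤ) (hu : 0 < th u₁ u₂) (N : ℕ) : ∃ t₀ : ℝ, ∀ t : ℝ, t₀ ≤ t → ∃ p₁ p₂ : ℕ,
    N ≤ p₁ ∧ N ≤ p₂ ∧ t - th u₁ u₂ < th p₁ p₂ ∧ th p₁ p₂ ≤ t := by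
  set τ := th u₁ u₂ with hτ
  have h2 := log2_pos
  set k₁ : ℕ := ⌈Real.log 2 / τ⌉₊ with hk₁
  set N' : ℕ := N + k₁ * (u₁.natAbs + u₂.natAbs) with hN'
  refine ⟨th N' N', fun t ht => ?_⟩
  set s := t - th N' N' with hs
  have hs0 : 0 ≤ s := by linarith
  set m : ℕ := ⌊s / Real.log 2⌋₊ with hm
  have hm1 : (m : ℝ) * Real.log 2 ≤ s := by
    rw [← le_div_iff₀ h2]
    exact Nat.floor_le (by positivity)
  have hm2 : s < (m + 1) * Real.log 2 := by
    rw [← div_lt_iff₀ h2]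
    exact Nat.lt_floor_add_one _
  set r := s - m * Real.log 2 with hr
  have hr0 : 0 ≤ r := by linarith
  have hr1 : r < Real.log 2 := by linarith
  set k : ℕ := ⌊r / τ⌋₊ with hk
  have hk1' : (k : ℝ) * τ ≤ r := by
    rw [← le_div_iff₀ hu]
    exact Nat.floor_le (by positivity)
  have hk2' : r < (k + 1) * τ := by
    rw [← div_lt_iff₀ hu]
    exact Nat.lt_floor_add_one _
  have hkk : k ≤ k₁ := by
    have : (k : ℝ) ≤ k₁ := by
      have a1 : (k : ℝ) ≤ r / τ := Nat.floor_le (by positivity)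
      have a2 : r / τ ≤ Real.log 2 / τ := by gcongr
      exact a1.trans (a2.trans (Nat.le_ceil _))
    exact_mod_cast this
  have b1 : k * (u₁.natAbs + u₂.natAbs) ≤ k₁ * (u₁.natAbs + u₂.natAbs) := Nat.mul_le_mul_right _ hkk
  have b2 : (k : ℤ) * (u₁.natAbs + u₂.natAbs) ≤ (k₁ * (u₁.natAbs + u₂.natAbs) : ℕ) := by exact_mod_cast b1
  have c1 : -(k : ℤ) * (u₁.natAbs + u₂.natAbs) ≤ k * u₁ := by
    have : -(u₁.natAbs : ℤ) ≤ u₁ := by omega
    have h3 : (0 : ℤ) ≤ k := by positivity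
    have h4 : (0 : ℤ) ≤ k * u₂.natAbs := by positivity
    nlinarith
  have c2 : -(k : ℤ) * (u₁.natAbs + u₂.natAbs) ≤ k * u₂ := by
    have : -(u₂.natAbs : ℤ) ≤ u₂ := by omega
    have h3 : (0 : ℤ) ≤ k := by positivity
    have h4 : (0 : ℤ) ≤ k * u₁.natAbs := by positivity
    nlinarith
  have hN'2 : (N' : ℤ) = N + (k₁ * (u₁.natAbs + u₂.natAbs) : ℕ) := by
    rw [hN']
    push_cast
    ring
  have d1 : (N : ℤ) ≤ N' + k * u₁ := by rw [hN'2]; linarith
  have d2 : (N : ℤ) ≤ N' + k * u₂ := by rw [hN'2]; linarith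
  obtain ⟨p₁, hp₁⟩ : ∃ p₁ : ℕ, (p₁ : ℤ) = N' + m + k * u₁ := ⟨(N' + m + k * u₁ : ℤ).toNat, by omega⟩
  obtain ⟨p₂, hp₂⟩ : ∃ p₂ : ℕ, (p₂ : ℤ) = N' + k * u₂ := ⟨(N' + k * u₂ : ℤ).toNat, by omega⟩
  have e : th p₁ p₂ = th N' N' + m * Real.log 2 + k * τ := by
    rw [hp₁, hp₂, hτ]
    unfold th
    push_cast
    ring
  refine ⟨p₁, p₂, by omega, by omega, ?_, ?_⟩
  · rw [e]
    linarith
  · rw [e]
    linarith

lemma exp_th (i j : ℕ) : Real.exp (th i j) = 2 ^ i * 3 ^ j := by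
  unfold th
  rw [Real.exp_add]
  push_cast
  rw [mul_comm (i : ℝ), mul_comm (j : ℝ), Real.exp_mul, Real.exp_mul, Real.exp_log (by norm_num),
    Real.exp_log (by norm_num), Real.rpow_natCast, Real.rpow_natCast]

/-- **Sixteen numbers in a short interval.** -/
theorem window (a b : ℝ) (ha : 0 < a) (hab : a < b) : ∃ u₁ u₂ v₁ v₂ : ℤ, u₁ * v₂ - u₂ * v₁ = 1 ∧
    ∃ H : ℝ, 0 < H ∧ ∀ h : ℝ, H ≤ h → ∃ p₁ p₂ : ℕ,
      ∀ k l : ℤ, 0 ≤ k → k ≤ 3 → 0 ≤ l → l ≤ 3 → ∃ i j : ℕ, (i : ℤ) = p₁ + k * u₁ + l * v₁ ∧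
      (j : ℤ) = p₂ + k * u₂ + l * v₂ ∧ a < h / (2 ^ i * 3 ^ j) ∧ h / (2 ^ i * 3 ^ j) < b := by
  have hb : 0 < b := ha.trans hab
  set κ := (Real.log b - Real.log a) / 16 with hκ
  have hκ0 : 0 < κ := by
    have := Real.log_lt_log ha hab
    rw [hκ]
    linarith
  obtain ⟨u₁, u₂, v₁, v₂, hdet, hu0, hu1, hv⟩ := basis κ hκ0
  set N : ℕ := 3 * (u₁.natAbs + u₂.natAbs + v₁.natAbs + v₂.natAbs) with hN
  obtain ⟨t₀, ht₀⟩ := target u₁ u₂ hu0 N
  refine ⟨u₁, u₂, v₁, v₂, hdet, Real.exp (t₀ + (Real.log a + Real.log b) / 2), Real.exp_pos _, fun h hh => ?_⟩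
  have hh0 : 0 < h := (Real.exp_pos _).trans_le hh
  have hlog : t₀ + (Real.log a + Real.log b) / 2 ≤ Real.log h := by
    rw [Real.le_log_iff_exp_le hh0]
    exact hh
  obtain ⟨p₁, p₂, hp₁, hp₂, h1, h2⟩ := ht₀ (Real.log h - (Real.log a + Real.log b) / 2) (by linarith)
  refine ⟨p₁, p₂, fun k l hk hk' hl hl' => ?_⟩
  have aux : ∀ x : ℤ, ∀ k : ℤ, 0 ≤ k → k ≤ 3 → -(3 * x.natAbs : ℤ) ≤ k * x := by
    intro x k hk hk'
    have h3 : -(x.natAbs : ℤ) ≤ x := by omega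
    have h4 : (0 : ℤ) ≤ x.natAbs := by positivity
    nlinarith
  have g1 := aux u₁ k hk hk'
  have g2 := aux u₂ k hk hk'
  have g3 := aux v₁ l hl hl'
  have g4 := aux v₂ l hl hl'
  obtain ⟨i, hi⟩ : ∃ i : ℕ, (i : ℤ) = p₁ + k * u₁ + l * v₁ := ⟨(p₁ + k * u₁ + l * v₁ : ℤ).toNat, by omega⟩
  obtain ⟨j, hj⟩ : ∃ j : ℕ, (j : ℤ) = p₂ + k * u₂ + l * v₂ := ⟨(p₂ + k * u₂ + l * v₂ : ℤ).toNat, by omega⟩
  refine ⟨i, j, hi, hj, ?_⟩
  have e : th i j = th p₁ p₂ + k * th u₁ u₂ + l * th v₁ v₂ := by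
    rw [hi, hj]
    unfold th
    push_cast
    ring
  have hkr : (0 : ℝ) ≤ k := by exact_mod_cast hk
  have hkr' : (k : ℝ) ≤ 3 := by exact_mod_cast hk'
  have hlr : (0 : ℝ) ≤ l := by exact_mod_cast hl
  have hlr' : (l : ℝ) ≤ 3 := by exact_mod_cast hl'
  obtain ⟨hv1, hv2⟩ := abs_le.1 hv
  have f1 : k * th u₁ u₂ ≤ 3 * κ := by nlinarith
  have f2 : 0 ≤ k * th u₁ u₂ := by positivity
  have f3 : l * th v₁ v₂ ≤ 3 * κ := by nlinarith
  have f4 : -(3 * κ) ≤ l * th v₁ v₂ := by nlinarith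
  have hdist1 : th i j < Real.log h - Real.log a := by
    rw [e]
    rw [hκ] at f1 f3 hκ0
    linarith
  have hdist2 : Real.log h - Real.log b < th i j := by
    rw [e]
    rw [hκ] at f4 hκ0 hu1
    linarith
  have hE := exp_th i j
  have hEpos : (0 : ℝ) < 2 ^ i * 3 ^ j := by positivity
  constructor
  · rw [lt_div_iff₀ hEpos, ← hE]
    calc a * Real.exp (th i j) < a * Real.exp (Real.log h - Real.log a) := by gcongr
      _ = h := by
        rw [Real.exp_sub, Real.exp_log hh0, Real.exp_log ha]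
        field_simp
  · rw [div_lt_iff₀ hEpos, ← hE]
    calc h = b * Real.exp (Real.log h - Real.log b) := by
          rw [Real.exp_sub, Real.exp_log hh0, Real.exp_log hb]
          field_simp
      _ < b * Real.exp (th i j) := by gcongr

end Pool.Agent.U766.SN
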