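import Mathlib

/-!
# Functions on `ℤ × ℤ` with a recurrence of order two in each variable

Such a function is determined, with bounds, by its values at the sixteen points `P + k u + l v`,
`0 ≤ k, l ≤ 3`, if `u`, `v` is a basis of `ℤ × ℤ`.
-/

set_option autoImplicit false

open Polynomial

namespace Pool.Agent.U766.SN

/-- `f (n + 1) + f (n - 1) = c f n` -/
def Rec (c : ℂ) (f : ℤ → ℂ) : Prop := ∀ n, f (n + 1) + f (n - 1) = c * f n

/-- the solutions of the recurrence -/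
noncomputable def s (c : ℂ) (n : ℤ) : ℂ := (Chebyshev.S ℂ n).eval c

lemma s_zero (c : ℂ) : s c 0 = 1 := by simp [s]
lemma s_neg_one (c : ℂ) : s c (-1) = 0 := by simp [s]
lemma s_neg_two (c : ℂ) : s c (-2) = -1 := by simp [s]

lemma s_add_two (c : ℂ) (n : ℤ) : s c (n + 2) = c * s c (n + 1) - s c n := by
  simp [s, Chebyshev.S_add_two]

lemma rec_s (c : ℂ) (a : ℤ) : Rec c fun n => s c (n + a) := by
  intro n
  have h := s_add_two c (n + a - 1)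
  rw [show n + a - 1 + 2 = n + 1 + a by ring, show n + a - 1 + 1 = n + a by ring,
    show n + a - 1 = n - 1 + a by ring] at h
  show s c (n + 1 + a) + s c (n - 1 + a) = c * s c (n + a)
  rw [h]
  ring

lemma nat_eq (c : ℂ) (x : ℕ → ℂ) (h : ∀ n, x (n + 2) + x n = c * x (n + 1)) (n : ℕ) :
    x n = s c (n - 1) * x 1 - s c (n - 2) * x 0 := by
  induction n using Nat.twoStepInduction with
  | zero => simp [s_neg_one, s_neg_two]
  | one =>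
    have e1 : ((1 : ℕ) : ℤ) - 1 = 0 := by norm_num
    have e2 : ((1 : ℕ) : ℤ) - 2 = -1 := by norm_num
    rw [e1, e2, s_neg_one, s_zero]
    ring
  | more n ih1 ih2 =>
    have h1 := h n
    have h2 := s_add_two c ((n : ℤ) - 1)
    have h3 := s_add_two c ((n : ℤ) - 2)
    rw [show (n : ℤ) - 1 + 2 = ((n + 2 : ℕ) : ℤ) - 1 by push_cast; ring,
      show (n : ℤ) - 1 + 1 = ((n + 1 : ℕ) : ℤ) - 1 by push_cast; ring] at h2
    rw [show (n : ℤ) - 2 + 2 = ((n + 2 : ℕ) : ℤ) - 2 by push_cast; ring,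
      show (n : ℤ) - 2 + 1 = ((n + 1 : ℕ) : ℤ) - 2 by push_cast; ring] at h3
    rw [h2, h3]
    rw [ih1, ih2] at h1
    linear_combination h1

/-- steps of length `u` -/
lemma step_len (u : ℕ) : ∃ P : ℂ → ℂ, (∀ c : ℂ, ∀ K : ℝ, ‖c‖ ≤ K → ‖P c‖ ≤ 2 * (K + 2) ^ u) ∧
    ∀ (c : ℂ) (f : ℤ → ℂ), Rec c f → ∀ n : ℤ, f (n + u) + f (n - u) = P c * f n := by
  suffices H : ∀ u : ℕ, (∃ P : ℂ → ℂ, (∀ c : ℂ, ∀ K : ℝ, ‖c‖ ≤ K → ‖P c‖ ≤ 2 * (K + 2) ^ u) ∧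
    (∃ Q : ℂ → ℂ, (∀ c : ℂ, ∀ K : ℝ, ‖c‖ ≤ K → ‖Q c‖ ≤ 2 * (K + 2) ^ (u + 1)) ∧
    ∀ (c : ℂ) (f : ℤ → ℂ), Rec c f → ∀ n : ℤ, f (n + u) + f (n - u) = P c * f n ∧
      f (n + (u + 1 : ℕ)) + f (n - (u + 1 : ℕ)) = Q c * f n)) by
    obtain ⟨P, hP, Q, -, h⟩ := H u
    exact ⟨P, hP, fun c f hf n => (h c f hf n).1⟩
  intro u
  induction u with
  | zero =>
    refine ⟨fun _ => 2, fun c K _ => by simp, fun c => c, fun c K h => ?_, fun c f hf n => ⟨?_, ?_⟩⟩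
    · have := norm_nonneg c
      simp only [zero_add, pow_one]
      linarith
    · simp only [Nat.cast_zero, add_zero, sub_zero]
      ring
    · simpa using hf n
  | succ u ih =>
    obtain ⟨P, hP, Q, hQ, h⟩ := ih
    refine ⟨Q, hQ, fun c => c * Q c - P c, fun c K hc => ?_, fun c f hf n => ⟨(h c f hf n).2, ?_⟩⟩
    · have h1 := hP c K hc
      have h2 := hQ c K hc
      have hK : 0 ≤ K := (norm_nonneg c).trans hc
      have h3 : (0 : ℝ) < (K + 2) ^ u := by positivity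
      calc ‖c * Q c - P c‖ ≤ ‖c * Q c‖ + ‖P c‖ := norm_sub_le _ _
        _ = ‖c‖ * ‖Q c‖ + ‖P c‖ := by rw [norm_mul]
        _ ≤ K * (2 * (K + 2) ^ (u + 1)) + 2 * (K + 2) ^ u := by gcongr
        _ ≤ 2 * (K + 2) ^ (u + 1 + 1) := by
          have e1 : (K + 2) ^ (u + 1) = (K + 2) ^ u * (K + 2) := pow_succ _ _
          have e2 : (K + 2) ^ (u + 1 + 1) = (K + 2) ^ u * (K + 2) * (K + 2) := by rw [pow_succ, pow_succ]
          rw [e1, e2]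
          nlinarith
    · have a1 := hf (n + (u + 1 : ℕ))
      have a2 := hf (n - (u + 1 : ℕ))
      obtain ⟨a3, a4⟩ := h c f hf n
      rw [show n + ((u + 1 : ℕ) : ℤ) + 1 = n + ((u + 1 + 1 : ℕ) : ℤ) by push_cast; ring,
        show n + ((u + 1 : ℕ) : ℤ) - 1 = n + (u : ℤ) by push_cast; ring] at a1
      rw [show n - ((u + 1 : ℕ) : ℤ) + 1 = n - (u : ℤ) by push_cast; ring,
        show n - ((u + 1 : ℕ) : ℤ) - 1 = n - ((u + 1 + 1 : ℕ) : ℤ) by push_cast; ring] at a2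
      linear_combination a1 + a2 - a3 + c * a4

/-- steps of length `u`, `u` an integer -/
lemma step_int (u : ℤ) : ∃ P : ℂ → ℂ, (∀ c : ℂ, ∀ K : ℝ, ‖c‖ ≤ K → ‖P c‖ ≤ 2 * (K + 2) ^ u.natAbs) ∧
    ∀ (c : ℂ) (f : ℤ → ℂ), Rec c f → ∀ n : ℤ, f (n + u) + f (n - u) = P c * f n := by
  obtain ⟨P, hP, h⟩ := step_len u.natAbs
  refine ⟨P, hP, fun c f hf n => ?_⟩
  have h1 := h c f hf n
  rcases Int.natAbs_eq u with hu | hu
  · rw [← hu] at h1
    exact h1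
  · have e : ((u.natAbs : ℕ) : ℤ) = -u := by omega
    rw [e, sub_neg_eq_add, ← sub_eq_add_neg] at h1
    rw [← h1, add_comm]

/-- functions of two variables -/
structure Rec2 (c d : ℂ) (f : ℤ → ℤ → ℂ) : Prop where
  fst : ∀ n, Rec c fun m => f m n
  snd : ∀ m, Rec d fun n => f m n

/-- the recurrence of order four in the direction `(1, 1)` -/
lemma quartic {a b : ℂ} {z : ℤ → ℤ → ℂ} (h1 : ∀ m n, z (m + 1) n + z (m - 1) n = a * z m n)
    (h2 : ∀ m n, z m (n + 1) + z m (n - 1) = b * z m n) :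
    z 4 4 - a * b * z 3 3 + (a ^ 2 + b ^ 2 - 2) * z 2 2 - a * b * z 1 1 + z 0 0 = 0 := by
  have A4 : ∀ n, z 4 n = a * z 3 n - z 2 n := fun n => by
    have := h1 3 n
    norm_num at this
    linear_combination this
  have A1 : ∀ n, z 1 n = a * z 2 n - z 3 n := fun n => by
    have := h1 2 n
    norm_num at this
    linear_combination this
  have A0 : ∀ n, z 0 n = a * z 1 n - z 2 n := fun n => by
    have := h1 1 n
    norm_num at this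
    linear_combination this
  have B4 : ∀ m, z m 4 = b * z m 3 - z m 2 := fun m => by
    have := h2 m 3
    norm_num at this
    linear_combination this
  have B1 : ∀ m, z m 1 = b * z m 2 - z m 3 := fun m => by
    have := h2 m 2
    norm_num at this
    linear_combination this
  have B0 : ∀ m, z m 0 = b * z m 1 - z m 2 := fun m => by
    have := h2 m 1
    norm_num at this
    linear_combination this
  rw [A4, A0 0, A1 0, A1 1]
  simp only [B4, B0, B1]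
  ring

/-- a linear recurrence of order four propagates bounds upwards -/
lemma up {q r : ℂ} {L M : ℝ} (hL : 2 * ‖q‖ + ‖r‖ + 1 ≤ L) (hM : 0 ≤ M) (g : ℕ → ℂ)
    (h : ∀ k, g (k + 4) = q * g (k + 3) - r * g (k + 2) + q * g (k + 1) - g k)
    (h0 : ∀ k ≤ 3, ‖g k‖ ≤ M) (k : ℕ) : ‖g k‖ ≤ L ^ k * M := by
  have hq := norm_nonneg q
  have hr := norm_nonneg r
  have hL1 : 1 ≤ L := by linarith
  induction k using Nat.strong_induction_on with
  | _ k ih =>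
    rcases Nat.lt_or_ge k 4 with hk | hk
    · have h1 := h0 k (by omega)
      have h2 : 1 ≤ L ^ k := one_le_pow₀ hL1
      nlinarith
    · obtain ⟨j, rfl⟩ : ∃ j, k = j + 4 := ⟨k - 4, by omega⟩
      have i3 := ih (j + 3) (by omega)
      have i2 := ih (j + 2) (by omega)
      have i1 := ih (j + 1) (by omega)
      have i0 := ih j (by omega)
      have m2 : L ^ (j + 2) ≤ L ^ (j + 3) := pow_le_pow_right₀ hL1 (by omega)
      have m1 : L ^ (j + 1) ≤ L ^ (j + 3) := pow_le_pow_right₀ hL1 (by omega)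
      have m0 : L ^ j ≤ L ^ (j + 3) := pow_le_pow_right₀ hL1 (by omega)
      have k2 : ‖g (j + 2)‖ ≤ L ^ (j + 3) * M := i2.trans (by gcongr)
      have k1 : ‖g (j + 1)‖ ≤ L ^ (j + 3) * M := i1.trans (by gcongr)
      have k0 : ‖g j‖ ≤ L ^ (j + 3) * M := i0.trans (by gcongr)
      rw [h j]
      calc ‖q * g (j + 3) - r * g (j + 2) + q * g (j + 1) - g j‖
          ≤ ‖q * g (j + 3) - r * g (j + 2) + q * g (j + 1)‖ + ‖g j‖ := norm_sub_le _ _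
        _ ≤ ‖q * g (j + 3) - r * g (j + 2)‖ + ‖q * g (j + 1)‖ + ‖g j‖ := by gcongr; exact norm_add_le _ _
        _ ≤ ‖q * g (j + 3)‖ + ‖r * g (j + 2)‖ + ‖q * g (j + 1)‖ + ‖g j‖ := by gcongr; exact norm_sub_le _ _
        _ = ‖q‖ * ‖g (j + 3)‖ + ‖r‖ * ‖g (j + 2)‖ + ‖q‖ * ‖g (j + 1)‖ + ‖g j‖ := by
          rw [norm_mul, norm_mul, norm_mul]
        _ ≤ ‖q‖ * (L ^ (j + 3) * M) + ‖r‖ * (L ^ (j + 3) * M) + ‖q‖ * (L ^ (j + 3) * M) + L ^ (j + 3) * M := by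
          gcongr
        _ = (2 * ‖q‖ + ‖r‖ + 1) * (L ^ (j + 3) * M) := by ring
        _ ≤ L * (L ^ (j + 3) * M) := by
          gcongr
        _ = L ^ (j + 4) * M := by ring

/-- a palindromic recurrence of order four propagates bounds in both directions -/
lemma both {q r : ℂ} {L M : ℝ} (hL : 2 * ‖q‖ + ‖r‖ + 1 ≤ L) (hM : 0 ≤ M) (g : ℤ → ℂ)
    (h : ∀ k, g (k + 4) - q * g (k + 3) + r * g (k + 2) - q * g (k + 1) + g k = 0)
    (h0 : ∀ k, 0 ≤ k → k ≤ 3 → ‖g k‖ ≤ M) (k : ℤ) : ‖g k‖ ≤ L ^ (k.natAbs + 3) * M := by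
  have hq := norm_nonneg q
  have hr := norm_nonneg r
  have hL1 : 1 ≤ L := by linarith
  rcases Int.le_total 0 k with hk | hk
  · have h1 := up hL hM (fun n : ℕ => g n) (fun n => by
      have := h n
      push_cast
      linear_combination this) (fun n hn => h0 n (by positivity) (by exact_mod_cast hn)) k.natAbs
    have e : ((k.natAbs : ℕ) : ℤ) = k := by omega
    simp only [e] at h1
    refine h1.trans ?_
    gcongr
    omega
  · have h1 := up hL hM (fun n : ℕ => g (3 - n)) (fun n => by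
      have := h (3 - n - 4)
      rw [show (3 - (n : ℤ) - 4 + 4) = 3 - n by ring, show (3 - (n : ℤ) - 4 + 3) = 3 - (n + 1) by ring,
        show (3 - (n : ℤ) - 4 + 2) = 3 - (n + 2) by ring, show (3 - (n : ℤ) - 4 + 1) = 3 - (n + 3) by ring,
        show (3 - (n : ℤ) - 4) = 3 - (n + 4) by ring] at this
      push_cast
      linear_combination this) (fun n hn => h0 _ (by omega) (by omega)) (k.natAbs + 3)
    have e : 3 - ((k.natAbs + 3 : ℕ) : ℤ) = k := by omega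
    simp only [e] at h1
    exact h1

/-- the bound for one direction -/
lemma direction (u₁ u₂ : ℤ) (K : ℝ) (hK : 0 ≤ K) : ∃ L : ℝ, 1 ≤ L ∧ ∀ (c d : ℂ), ‖c‖ ≤ K → ‖d‖ ≤ K →
    ∀ f : ℤ → ℤ → ℂ, Rec2 c d f → ∀ (M : ℝ) (p₁ p₂ : ℤ), 0 ≤ M →
    (∀ k, 0 ≤ k → k ≤ 3 → ‖f (p₁ + k * u₁) (p₂ + k * u₂)‖ ≤ M) →
    ∀ k : ℤ, ‖f (p₁ + k * u₁) (p₂ + k * u₂)‖ ≤ L ^ (k.natAbs + 3) * M := by
  obtain ⟨P, hP, h1⟩ := step_int u₁
  obtain ⟨Q, hQ, h2⟩ := step_int u₂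
  set A : ℝ := 2 * (K + 2) ^ u₁.natAbs with hA
  set B : ℝ := 2 * (K + 2) ^ u₂.natAbs with hB
  have hA0 : 0 ≤ A := by positivity
  have hB0 : 0 ≤ B := by positivity
  refine ⟨2 * (A * B) + (A ^ 2 + B ^ 2 + 2) + 1, by nlinarith [mul_nonneg hA0 hB0, sq_nonneg A, sq_nonneg B],
    fun c d hc hd f hf M p₁ p₂ hM h0 => ?_⟩
  have hPc := hP c K hc
  have hQd := hQ d K hd
  refine both (q := P c * Q d) (r := P c ^ 2 + Q d ^ 2 - 2) ?_ hM
    (fun k => f (p₁ + k * u₁) (p₂ + k * u₂)) (fun k => ?_) h0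
  · have n1 : ‖P c * Q d‖ ≤ A * B := by
      rw [norm_mul]
      gcongr
    have n2 : ‖P c ^ 2 + Q d ^ 2 - 2‖ ≤ A ^ 2 + B ^ 2 + 2 := by
      calc ‖P c ^ 2 + Q d ^ 2 - 2‖ ≤ ‖P c ^ 2 + Q d ^ 2‖ + ‖(2 : ℂ)‖ := norm_sub_le _ _
        _ ≤ ‖P c ^ 2‖ + ‖Q d ^ 2‖ + ‖(2 : ℂ)‖ := by gcongr; exact norm_add_le _ _
        _ = ‖P c‖ ^ 2 + ‖Q d‖ ^ 2 + 2 := by rw [norm_pow, norm_pow]; norm_num
        _ ≤ _ := by gcongr
    linarith
  · have q1 := quartic (a := P c) (b := Q d) (z := fun m n => f (p₁ + (k + m) * u₁) (p₂ + (k + n) * u₂))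
      (fun m n => by
        have := h1 c _ (hf.fst (p₂ + (k + n) * u₂)) (p₁ + (k + m) * u₁)
        rw [show p₁ + (k + m) * u₁ + u₁ = p₁ + (k + (m + 1)) * u₁ by ring,
          show p₁ + (k + m) * u₁ - u₁ = p₁ + (k + (m - 1)) * u₁ by ring] at this
        exact this)
      (fun m n => by
        have := h2 d _ (hf.snd (p₁ + (k + m) * u₁)) (p₂ + (k + n) * u₂)
        rw [show p₂ + (k + n) * u₂ + u₂ = p₂ + (k + (n + 1)) * u₂ by ring,
          show p₂ + (k + n) * u₂ - u₂ = p₂ + (k + (n - 1)) * u₂ by ring] at this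
        exact this)
    simp only [add_zero] at q1
    exact q1

/-- **Sixteen points.** -/
theorem sixteen (u₁ u₂ v₁ v₂ : ℤ) (hdet : u₁ * v₂ - u₂ * v₁ = 1) (K : ℝ) (hK : 0 ≤ K) :
    ∃ L : ℝ, 1 ≤ L ∧ ∃ B : ℕ, ∀ (c d : ℂ), ‖c‖ ≤ K → ‖d‖ ≤ K →
    ∀ f : ℤ → ℤ → ℂ, Rec2 c d f → ∀ (M : ℝ) (p₁ p₂ : ℕ), 0 ≤ M →
    (∀ k l : ℤ, 0 ≤ k → k ≤ 3 → 0 ≤ l → l ≤ 3 →
      ‖f (p₁ + k * u₁ + l * v₁) (p₂ + k * u₂ + l * v₂)‖ ≤ M) →
    ‖f 0 0‖ ≤ L ^ (B * (p₁ + p₂ + 1)) * M := by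
  obtain ⟨L₁, hL₁, h1⟩ := direction u₁ u₂ K hK
  obtain ⟨L₂, hL₂, h2⟩ := direction v₁ v₂ K hK
  set L := max L₁ L₂ with hL
  have hL1 : 1 ≤ L := hL₁.trans (le_max_left _ _)
  set B : ℕ := u₁.natAbs + u₂.natAbs + v₁.natAbs + v₂.natAbs + 6 with hB
  refine ⟨L, hL1, B, fun c d hc hd f hf M p₁ p₂ hM h0 => ?_⟩
  set k₀ : ℤ := -(p₁ * v₂ - p₂ * v₁) with hk₀
  set l₀ : ℤ := -(u₁ * p₂ - u₂ * p₁) with hl₀
  have s1 : ∀ l : ℤ, 0 ≤ l → l ≤ 3 → ‖f (p₁ + k₀ * u₁ + l * v₁) (p₂ + k₀ * u₂ + l * v₂)‖ ≤ L₁ ^ (k₀.natAbs + 3) * M := by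
    intro l hl hl'
    have := h1 c d hc hd f hf M (p₁ + l * v₁) (p₂ + l * v₂) hM (fun k hk hk' => by
      have h3 := h0 k l hk hk' hl hl'
      rw [show (p₁ : ℤ) + l * v₁ + k * u₁ = p₁ + k * u₁ + l * v₁ by ring,
        show (p₂ : ℤ) + l * v₂ + k * u₂ = p₂ + k * u₂ + l * v₂ by ring]
      exact h3) k₀
    rw [show (p₁ : ℤ) + l * v₁ + k₀ * u₁ = p₁ + k₀ * u₁ + l * v₁ by ring,
        show (p₂ : ℤ) + l * v₂ + k₀ * u₂ = p₂ + k₀ * u₂ + l * v₂ by ring] at this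
    exact this
  have s2 := h2 c d hc hd f hf (L₁ ^ (k₀.natAbs + 3) * M) (p₁ + k₀ * u₁) (p₂ + k₀ * u₂)
    (by positivity) s1 l₀
  have e1 : (p₁ : ℤ) + k₀ * u₁ + l₀ * v₁ = 0 := by
    rw [hk₀, hl₀]
    linear_combination (-(p₁ : ℤ)) * hdet
  have e2 : (p₂ : ℤ) + k₀ * u₂ + l₀ * v₂ = 0 := by
    rw [hk₀, hl₀]
    linear_combination (-(p₂ : ℤ)) * hdet
  rw [e1, e2] at s2
  refine s2.trans ?_
  have a1 : L₁ ^ (k₀.natAbs + 3) ≤ L ^ (k₀.natAbs + 3) := pow_le_pow_left₀ (by linarith) (le_max_left _ _) _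
  have a2 : L₂ ^ (l₀.natAbs + 3) ≤ L ^ (l₀.natAbs + 3) := pow_le_pow_left₀ (by linarith) (le_max_right _ _) _
  have b1 : k₀.natAbs ≤ p₁ * v₂.natAbs + p₂ * v₁.natAbs := by
    rw [hk₀, Int.natAbs_neg]
    refine (Int.natAbs_sub_le _ _).trans ?_
    rw [Int.natAbs_mul, Int.natAbs_mul]
    simp
  have b2 : l₀.natAbs ≤ u₁.natAbs * p₂ + u₂.natAbs * p₁ := by
    rw [hl₀, Int.natAbs_neg]
    refine (Int.natAbs_sub_le _ _).trans ?_
    rw [Int.natAbs_mul, Int.natAbs_mul]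
    simp
  have b3 : (l₀.natAbs + 3) + (k₀.natAbs + 3) ≤ B * (p₁ + p₂ + 1) := by
    rw [hB]
    nlinarith [Nat.zero_le (u₁.natAbs * p₁), Nat.zero_le (u₂.natAbs * p₂), Nat.zero_le (v₁.natAbs * p₁),
      Nat.zero_le (v₂.natAbs * p₂), Nat.zero_le (p₁ + p₂), Nat.zero_le (u₁.natAbs), Nat.zero_le (u₂.natAbs),
      Nat.zero_le (v₁.natAbs), Nat.zero_le (v₂.natAbs)]
  calc L₂ ^ (l₀.natAbs + 3) * (L₁ ^ (k₀.natAbs + 3) * M)
      ≤ L ^ (l₀.natAbs + 3) * (L ^ (k₀.natAbs + 3) * M) := by gcongr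
    _ = L ^ ((l₀.natAbs + 3) + (k₀.natAbs + 3)) * M := by rw [pow_add]; ring
    _ ≤ L ^ (B * (p₁ + p₂ + 1)) * M := by
      gcongr

end Pool.Agent.U766.SN
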