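import Mathlib
import Pool.Agent.U766.SN.Rec
import Pool.Agent.N889.SN.Horo

/-!
# The complete sums over the points `(w + j) / n`, `n = 2^i 3^j`
-/

set_option autoImplicit false

open Finset

namespace Pool.Agent.U766.SN

open Pool.Agent.N889.SN (Per)

/-- extension of a function on `ℕ × ℕ` with recurrences to `ℤ × ℤ` -/
lemma ext2 (c d : ℂ) (E : ℕ → ℕ → ℂ) (h1 : ∀ i j, E (i + 2) j + E i j = c * E (i + 1) j)
    (h2 : ∀ i j, E i (j + 2) + E i j = d * E i (j + 1)) :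
    ∃ f : ℤ → ℤ → ℂ, Rec2 c d f ∧ ∀ i j : ℕ, f i j = E i j := by
  refine ⟨fun m n => s c (m - 1) * (s d (n - 1) * E 1 1 - s d (n - 2) * E 1 0) -
    s c (m - 2) * (s d (n - 1) * E 0 1 - s d (n - 2) * E 0 0), ⟨fun n m => ?_, fun m n => ?_⟩, fun i j => ?_⟩
  · have a1 := rec_s c (-1) m
    have a2 := rec_s c (-2) m
    simp only [← sub_eq_add_neg] at a1 a2
    simp only
    linear_combination (s d (n - 1) * E 1 1 - s d (n - 2) * E 1 0) * a1 -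
      (s d (n - 1) * E 0 1 - s d (n - 2) * E 0 0) * a2
  · have a1 := rec_s d (-1) n
    have a2 := rec_s d (-2) n
    simp only [← sub_eq_add_neg] at a1 a2
    simp only
    linear_combination (s c (m - 1) * E 1 1 - s c (m - 2) * E 0 1) * a1 -
      (s c (m - 1) * E 1 0 - s c (m - 2) * E 0 0) * a2
  · rw [nat_eq c (fun i => E i j) (fun i => h1 i j) i, nat_eq d (fun j => E 1 j) (fun j => h2 1 j) j,
      nat_eq d (fun j => E 0 j) (fun j => h2 0 j) j]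

/-- the complete sum -/
noncomputable def D (U : ℂ → ℂ) (n : ℕ) (w : ℂ) : ℂ := ∑ j ∈ range n, U ((w + j) / n)

lemma sum_mul (g : ℕ → ℂ) (n q : ℕ) :
    ∑ k ∈ range (n * q), g k = ∑ i ∈ range q, ∑ j ∈ range n, g (n * i + j) := by
  induction q with
  | zero => simp
  | succ q ih => rw [sum_range_succ, ← ih, mul_add, mul_one, sum_range_add]

variable {K : ℕ → ℝ} {U : ℂ → ℂ}

lemma im_pt {w : ℂ} (n : ℕ) (j : ℕ) : ((w + j) / n).im = w.im / n := by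
  rw [show (n : ℂ) = ((n : ℝ) : ℂ) by norm_cast, Complex.div_ofReal_im]
  simp

lemma D_rel (h : Per K U) {p : ℕ} (hp : p.Prime) {c : ℂ}
    (hc : ∀ z : ℂ, 0 < z.im → U (p * z) + ∑ b ∈ range p, U ((z + b) / p) = c * U z)
    {m : ℕ} (hm : 0 < m) {w : ℂ} (hw : 0 < w.im) :
    D U (m * p * p) w + p * D U m w = c * D U (m * p) w := by
  have hp0 : (0 : ℝ) < p := by exact_mod_cast hp.pos
  have hm0 : (0 : ℝ) < m := by exact_mod_cast hm
  have hpc : (p : ℂ) ≠ 0 := by exact_mod_cast hp.ne_zero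
  have hmc : (m : ℂ) ≠ 0 := by exact_mod_cast hm.ne'
  have hn0 : (0 : ℝ) < ((m * p : ℕ) : ℝ) := by push_cast; positivity
  have e1 : D U (m * p * p) w = ∑ i ∈ range p, ∑ j ∈ range (m * p), U (((w + j) / (m * p : ℕ) + i) / p) := by
    unfold D
    rw [sum_mul]
    refine sum_congr rfl fun i _ => sum_congr rfl fun j _ => ?_
    congr 1
    push_cast
    field_simp
    ring
  have e2 : (p : ℂ) * D U m w = ∑ j ∈ range (m * p), U (p * ((w + j) / (m * p : ℕ))) := by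
    rw [sum_mul]
    unfold D
    have : ∀ i ∈ range p, ∑ j ∈ range m, U (p * ((w + (m * i + j : ℕ)) / (m * p : ℕ))) =
        ∑ j ∈ range m, U ((w + j) / m) := by
      intro i _
      refine sum_congr rfl fun j _ => ?_
      have h1 := h.nat i (z := (w + j) / m) (by rw [im_pt]; positivity)
      rw [← h1]
      congr 1
      push_cast
      field_simp
      ring
    rw [sum_congr rfl this, sum_const, card_range, nsmul_eq_mul]
  rw [e1, e2, sum_comm, ← sum_add_distrib]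
  unfold D
  rw [mul_sum]
  refine sum_congr rfl fun j _ => ?_
  rw [← hc _ (by rw [im_pt]; positivity), add_comm]

lemma D_le {w : ℂ} {n : ℕ} {m : ℝ} (h : ∀ j < n, ‖U ((w + j) / n)‖ ≤ m) : ‖D U n w‖ ≤ n * m := by
  unfold D
  refine (norm_sum_le _ _).trans ?_
  calc ∑ j ∈ range n, ‖U ((w + j) / n)‖ ≤ ∑ j ∈ range n, m := sum_le_sum fun j hj => h _ (mem_range.1 hj)
    _ = n * m := by rw [sum_const, card_range, nsmul_eq_mul]

lemma alg {a b q c X0 X1 X2 : ℂ} (ha : a ≠ 0) (hb : b ≠ 0) (ha2 : a ^ 2 = q) (h : X2 + q * X0 = c * X1)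
    (i : ℕ) : X2 / (a ^ (i + 2) * b) + X0 / (a ^ i * b) = c / a * (X1 / (a ^ (i + 1) * b)) := by
  have e : X2 = c * X1 - a ^ 2 * X0 := by
    rw [ha2]
    linear_combination h
  rw [e, pow_add, pow_succ]
  field_simp
  ring

/-- **Sixteen denominators.** -/
theorem sixteen_hecke (u₁ u₂ v₁ v₂ : ℤ) (hdet : u₁ * v₂ - u₂ * v₁ = 1) (K : ℕ → ℝ) (hK : ∀ p, 0 ≤ K p) :
    ∃ L : ℝ, 1 ≤ L ∧ ∃ B : ℕ, ∀ U : ℂ → ℂ, Per K U → ∀ w : ℂ, 0 < w.im → ∀ (p₁ p₂ : ℕ) (N m : ℝ), 0 ≤ m →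
    (∀ k l : ℤ, 0 ≤ k → k ≤ 3 → 0 ≤ l → l ≤ 3 → ∃ i j : ℕ, (i : ℤ) = p₁ + k * u₁ + l * v₁ ∧
      (j : ℤ) = p₂ + k * u₂ + l * v₂ ∧ (2 : ℝ) ^ i * 3 ^ j ≤ N ∧
      ∀ t : ℕ, t < 2 ^ i * 3 ^ j → ‖U ((w + t) / ((2 ^ i * 3 ^ j : ℕ) : ℂ))‖ ≤ m) →
    ‖U w‖ ≤ L ^ (B * (p₁ + p₂ + 1)) * (N * m) := by
  obtain ⟨L, hL, B, h⟩ := sixteen u₁ u₂ v₁ v₂ hdet (K 2 + K 3) (add_nonneg (hK 2) (hK 3))
  refine ⟨L, hL, B, fun U hU w hw p₁ p₂ N m hm h0 => ?_⟩
  obtain ⟨c, hc, hc'⟩ := hU.hecke 2 Nat.prime_two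
  obtain ⟨d, hd, hd'⟩ := hU.hecke 3 Nat.prime_three
  set a : ℂ := ((√2 : ℝ) : ℂ) with ha
  set b : ℂ := ((√3 : ℝ) : ℂ) with hb
  have ha2 : a ^ 2 = 2 := by
    rw [ha, ← Complex.ofReal_pow, Real.sq_sqrt (by norm_num)]
    norm_num
  have hb2 : b ^ 2 = 3 := by
    rw [hb, ← Complex.ofReal_pow, Real.sq_sqrt (by norm_num)]
    norm_num
  have ha0 : a ≠ 0 := by
    intro h0
    rw [h0] at ha2
    norm_num at ha2
  have hb0 : b ≠ 0 := by
    intro h0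
    rw [h0] at hb2
    norm_num at hb2
  have hna : 1 ≤ ‖a‖ := by
    rw [ha, Complex.norm_real, Real.norm_eq_abs, abs_of_nonneg (Real.sqrt_nonneg _)]
    exact Real.one_le_sqrt.2 (by norm_num)
  have hnb : 1 ≤ ‖b‖ := by
    rw [hb, Complex.norm_real, Real.norm_eq_abs, abs_of_nonneg (Real.sqrt_nonneg _)]
    exact Real.one_le_sqrt.2 (by norm_num)
  obtain ⟨f, hf, hfE⟩ := ext2 (c / a) (d / b) (fun i j => D U (2 ^ i * 3 ^ j) w / (a ^ i * b ^ j))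
    (fun i j => by
      have h1 := D_rel hU Nat.prime_two hc' (m := 2 ^ i * 3 ^ j) (by positivity) hw
      rw [show 2 ^ i * 3 ^ j * 2 * 2 = 2 ^ (i + 2) * 3 ^ j by ring,
        show 2 ^ i * 3 ^ j * 2 = 2 ^ (i + 1) * 3 ^ j by ring] at h1
      push_cast at h1
      exact alg ha0 (pow_ne_zero _ hb0) ha2 h1 i)
    (fun i j => by
      have h1 := D_rel hU Nat.prime_three hd' (m := 2 ^ i * 3 ^ j) (by positivity) hw
      rw [show 2 ^ i * 3 ^ j * 3 * 3 = 2 ^ i * 3 ^ (j + 2) by ring,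
        show 2 ^ i * 3 ^ j * 3 = 2 ^ i * 3 ^ (j + 1) by ring] at h1
      push_cast at h1
      have h2 := alg hb0 (pow_ne_zero i ha0) hb2 h1 j
      rw [mul_comm (a ^ i), mul_comm (a ^ i), mul_comm (a ^ i)]
      exact h2)
  have hc1 : ‖c / a‖ ≤ K 2 + K 3 := by
    rw [norm_div]
    have := hK 3
    have h3 : ‖c‖ / ‖a‖ ≤ ‖c‖ := div_le_self (norm_nonneg _) hna
    linarith
  have hd1 : ‖d / b‖ ≤ K 2 + K 3 := by
    rw [norm_div]
    have := hK 2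
    have h3 : ‖d‖ / ‖b‖ ≤ ‖d‖ := div_le_self (norm_nonneg _) hnb
    linarith
  have hN : 0 ≤ N := by
    obtain ⟨i, j, -, -, h1, -⟩ := h0 0 0 le_rfl (by norm_num) le_rfl (by norm_num)
    exact (by positivity : (0 : ℝ) ≤ 2 ^ i * 3 ^ j).trans h1
  have h1 := h (c / a) (d / b) hc1 hd1 f hf (N * m) p₁ p₂ (by positivity) (fun k l hk hk' hl hl' => by
    obtain ⟨i, j, hi, hj, hij, hx⟩ := h0 k l hk hk' hl hl'
    rw [← hi, ← hj, hfE]
    have h2 : ‖D U (2 ^ i * 3 ^ j) w‖ ≤ ((2 ^ i * 3 ^ j : ℕ) : ℝ) * m := D_le hx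
    have h3 : 1 ≤ ‖a ^ i * b ^ j‖ := by
      rw [norm_mul, norm_pow, norm_pow]
      have := one_le_pow₀ hna (n := i)
      have := one_le_pow₀ hnb (n := j)
      nlinarith
    rw [norm_div]
    refine (div_le_self (norm_nonneg _) h3).trans (h2.trans ?_)
    push_cast
    gcongr)
  have e : f 0 0 = U w := by
    have := hfE 0 0
    simp only [Nat.cast_zero] at this
    rw [this]
    simp [D]
  rwa [e] at h1

end Pool.Agent.U766.SN
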