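import Mathlib
import Pool.Agent.U766.SN.Sums
import Pool.Agent.U766.SN.Heights
import Pool.Agent.N889.SN.Core

/-!
# Every horizontal strip controls the compact sets
-/

set_option autoImplicit false

open UpperHalfPlane ModularGroup
open scoped Modular MatrixGroups

namespace Pool.Agent.U766.SN

open Pool.Agent.N889.SN (Per)

/-- the points `(w + t) / n`, `n = 2^i 3^j`, `0 ≤ t < n`, with imaginary part between `a` and `(1 + η) a` -/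
def Pts (a η : ℝ) (w : ℂ) : Set ℂ := {x : ℂ | ∃ i j t : ℕ, t < 2 ^ i * 3 ^ j ∧ a < w.im / (2 ^ i * 3 ^ j) ∧
  w.im / (2 ^ i * 3 ^ j) < (1 + η) * a ∧ x = (w + t) / ((2 ^ i * 3 ^ j : ℕ) : ℂ)}

lemma Pts_im {a η : ℝ} {w x : ℂ} (h : x ∈ Pts a η w) : a < x.im ∧ x.im < (1 + η) * a := by
  obtain ⟨i, j, t, -, h1, h2, rfl⟩ := h
  have e : ((w + t) / ((2 ^ i * 3 ^ j : ℕ) : ℂ)).im = w.im / (2 ^ i * 3 ^ j) := by
    rw [im_pt]
    push_cast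
    rfl
  rw [e]
  exact ⟨h1, h2⟩

/-- a strip controls what is high above it, polynomially and uniformly in the scale -/
theorem above (K : ℕ → ℝ) (hK : ∀ p, 0 ≤ K p) (η : ℝ) (hη : 0 < η) : ∃ H C : ℝ, 0 < H ∧ 0 < C ∧ ∃ B : ℕ,
    ∀ a : ℝ, 0 < a → ∀ w : ℂ, H * a ≤ w.im → (Pts a η w).Nonempty ∧
      ∀ U : ℂ → ℂ, Per K U → ∀ m : ℝ, 0 ≤ m → (∀ x ∈ Pts a η w, ‖U x‖ ≤ m) → ‖U w‖ ≤ C * (w.im / a) ^ B * m := by
  obtain ⟨u₁, u₂, v₁, v₂, hdet, H, hH, h⟩ := window 1 (1 + η) one_pos (by linarith)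
  obtain ⟨L, hL, B, h'⟩ := sixteen_hecke u₁ u₂ v₁ v₂ hdet K hK
  obtain ⟨e, he⟩ := pow_unbounded_of_one_lt L (by norm_num : (1 : ℝ) < 2)
  refine ⟨H, 2 ^ (e * B), hH, by positivity, e * B + 1, fun a ha w hw1 => ?_⟩
  have hw : 0 < w.im := lt_of_lt_of_le (by positivity) hw1
  obtain ⟨p₁, p₂, hp⟩ := h (w.im / a) (by rwa [le_div_iff₀ ha])
  have conv : ∀ i j : ℕ, w.im / a / (2 ^ i * 3 ^ j) = w.im / (2 ^ i * 3 ^ j) / a := fun i j => by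
    rw [div_div, div_div, mul_comm]
  have c1 : ∀ i j : ℕ, 1 < w.im / a / (2 ^ i * 3 ^ j) → a < w.im / (2 ^ i * 3 ^ j) := fun i j h1 => by
    rw [conv, lt_div_iff₀ ha, one_mul] at h1
    exact h1
  have c2 : ∀ i j : ℕ, w.im / a / (2 ^ i * 3 ^ j) < 1 + η → w.im / (2 ^ i * 3 ^ j) < (1 + η) * a := fun i j h1 => by
    rwa [conv, div_lt_iff₀ ha] at h1
  constructor
  · obtain ⟨i, j, -, -, h1, h2⟩ := hp 0 0 le_rfl (by norm_num) le_rfl (by norm_num)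
    exact ⟨_, i, j, 0, by positivity, c1 i j h1, c2 i j h2, rfl⟩
  intro U hU m hm hx
  have key : ∀ i j : ℕ, 1 < w.im / a / (2 ^ i * 3 ^ j) → (2 : ℝ) ^ i * 3 ^ j ≤ w.im / a := by
    intro i j h1
    have h2 : (0 : ℝ) < 2 ^ i * 3 ^ j := by positivity
    rw [lt_div_iff₀ h2, one_mul] at h1
    exact h1.le
  have h1 := h' U hU w hw p₁ p₂ (w.im / a) m hm (fun k l hk hk' hl hl' => by
    obtain ⟨i, j, hi, hj, h1, h2⟩ := hp k l hk hk' hl hl'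
    exact ⟨i, j, hi, hj, key i j h1, fun t ht => hx _ ⟨i, j, t, ht, c1 i j h1, c2 i j h2, rfl⟩⟩)
  have hpn : (2 : ℝ) ^ (p₁ + p₂) ≤ w.im / a := by
    obtain ⟨i, j, hi, hj, h3, -⟩ := hp 0 0 le_rfl (by norm_num) le_rfl (by norm_num)
    have hi' : i = p₁ := by omega
    have hj' : j = p₂ := by omega
    subst hi' hj'
    have h2 := key _ _ h3
    rw [pow_add]
    calc (2 : ℝ) ^ i * 2 ^ j ≤ 2 ^ i * 3 ^ j := by gcongr; norm_num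
      _ ≤ w.im / a := h2
  have hL' : L ^ (B * (p₁ + p₂ + 1)) ≤ 2 ^ (e * B) * (w.im / a) ^ (e * B) := by
    calc L ^ (B * (p₁ + p₂ + 1)) ≤ (2 ^ e) ^ (B * (p₁ + p₂ + 1)) := by gcongr
      _ = 2 ^ (e * B) * ((2 : ℝ) ^ (p₁ + p₂)) ^ (e * B) := by
        rw [← pow_mul, ← pow_mul, ← pow_add]
        congr 1
        ring
      _ ≤ 2 ^ (e * B) * (w.im / a) ^ (e * B) := by gcongr
  have hwa : 0 < w.im / a := by positivity
  calc ‖U w‖ ≤ L ^ (B * (p₁ + p₂ + 1)) * (w.im / a * m) := h1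
    _ ≤ (2 ^ (e * B) * (w.im / a) ^ (e * B)) * (w.im / a * m) := by gcongr
    _ = 2 ^ (e * B) * (w.im / a) ^ (e * B + 1) * m := by ring

/-- from bounds to points -/
lemma to_point {U : ℂ → ℂ} {S : Set ℂ} (hS : S.Nonempty) {C : ℝ} (hC : 0 < C) {z : ℂ}
    (h : ∀ m : ℝ, 0 ≤ m → (∀ x ∈ S, ‖U x‖ ≤ m) → ‖U z‖ ≤ C * m) : ∃ w ∈ S, ‖U z‖ ≤ 2 * C * ‖U w‖ := by
  by_contra hcon
  push Not at hcon
  obtain ⟨w₀, hw₀⟩ := hS
  have h0 : 0 < ‖U z‖ := lt_of_le_of_lt (by positivity) (hcon w₀ hw₀)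
  have h1 := h (‖U z‖ / (2 * C)) (by positivity) (fun x hx => by
    rw [le_div_iff₀ (by positivity), mul_comm]
    exact (hcon x hx).le)
  rw [← mul_div_assoc, le_div_iff₀ (by positivity)] at h1
  nlinarith

/-- **High points.** -/
theorem high (K : ℕ → ℝ) (hK : ∀ p, 0 ≤ K p) (η : ℝ) (hη : 0 < η) : ∃ H C : ℝ, 0 < H ∧ 0 < C ∧ ∃ B : ℕ,
    ∀ U : ℂ → ℂ, Per K U → ∀ a : ℝ, 0 < a → ∀ w : ℂ, H * a ≤ w.im →
      ∃ x ∈ Pts a η w, ‖U w‖ ≤ C * (w.im / a) ^ B * ‖U x‖ := by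
  obtain ⟨H, C, hH, hC, B, h⟩ := above K hK η hη
  refine ⟨H, 2 * C, hH, by positivity, B, fun U hU a ha w hw => ?_⟩
  have hw0 : 0 < w.im := lt_of_lt_of_le (by positivity) hw
  obtain ⟨h1, h2⟩ := h a ha w hw
  obtain ⟨x, hx, h3⟩ := to_point (U := U) h1 (C := C * (w.im / a) ^ B) (by positivity) (h2 U hU)
  refine ⟨x, hx, h3.trans (le_of_eq (by ring))⟩

/-- **Strips.** All strips of heights between `a₁` and `a₂` and the given relative width at once. -/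
theorem strip (K : ℕ → ℝ) (hK : ∀ p, 0 ≤ K p) (η : ℝ) (hη : 0 < η) (a₁ a₂ : ℝ) (ha₁ : 0 < a₁) (Ω : Set ℂ)
    (hΩ : IsCompact Ω) (hΩ' : Ω ⊆ {z : ℂ | 0 < z.im}) :
    ∃ C : ℝ, 0 < C ∧ ∀ U : ℂ → ℂ, Per K U → (∀ z : ℂ, 0 < z.im → U (-z⁻¹) = U z) →
      ∀ a : ℝ, a₁ ≤ a → a ≤ a₂ →
      ∀ z ∈ Ω, ∃ w : ℂ, ‖U z‖ ≤ C * ‖U w‖ ∧ a < w.im ∧ w.im < (1 + η) * a := by
  obtain ⟨H, C, hH, hC, B, h⟩ := high K hK η hη
  obtain ⟨C₁, Y, hC₁, h1⟩ := Pool.Agent.N889.SN.cusp K hK (H * a₂) Ω hΩ hΩ'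
  refine ⟨C₁ * (C * (|Y / a₁| + 1) ^ B), by positivity, fun U hU hinv a haa hab z hz => ?_⟩
  have ha : 0 < a := ha₁.trans_le haa
  obtain ⟨v, hv, hv1, hv2⟩ := h1 U hU hinv z hz
  have hva : H * a ≤ v.im := le_trans (by gcongr) hv1
  have hv0 : 0 < v.im := lt_of_lt_of_le (by positivity) hva
  obtain ⟨w, hw, hw'⟩ := h U hU a ha v hva
  obtain ⟨hw1, hw2⟩ := Pts_im hw
  refine ⟨w, ?_, hw1, hw2⟩
  have e : v.im / a ≤ |Y / a₁| + 1 := by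
    calc v.im / a ≤ Y / a₁ := by
          have : 0 < Y := hv0.trans_le hv2
          gcongr
      _ ≤ |Y / a₁| := le_abs_self _
      _ ≤ |Y / a₁| + 1 := by linarith
  calc ‖U z‖ ≤ C₁ * ‖U v‖ := hv
    _ ≤ C₁ * (C * (v.im / a) ^ B * ‖U w‖) := by gcongr
    _ ≤ C₁ * (C * (|Y / a₁| + 1) ^ B * ‖U w‖) := by gcongr
    _ = _ := by ring

end Pool.Agent.U766.SN
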