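import Mathlib
import Pool.Agent.Y586.SW.GM

/-!
# The method of moments for a Gaussian limit, on a finite measure space
-/

set_option autoImplicit false

namespace Pool.Agent.U766.SN.GM

open Filter Topology MeasureTheory Complex ProbabilityTheory
open Pool.Agent.Y586.SW (Sm tay gm sum_gm_tendsto)
open scoped BoundedContinuousFunction

noncomputable section

/-! ### the moments -/

lemma int_pow (n : ℕ) : Integrable fun x : ℝ => x ^ n * Real.exp (-(x ^ 2) / 2) := by
  have h := integrable_rpow_mul_exp_neg_mul_sq (b := 1 / 2) (by norm_num) (s := (n : ℝ))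
    (by have : (0 : ℝ) ≤ n := n.cast_nonneg; linarith)
  refine h.congr (Eventually.of_forall fun x => ?_)
  simp only
  rw [Real.rpow_natCast]
  congr 2
  ring

lemma mom_zero : ∫ x : ℝ, Real.exp (-(x ^ 2) / 2) = √(2 * Real.pi) := by
  have h := integral_gaussian (1 / 2)
  have e : ∀ x : ℝ, Real.exp (-(x ^ 2) / 2) = Real.exp (-(1 / 2) * x ^ 2) := fun x => by congr 1; ring
  simp only [e, h]
  congr 1
  field_simp

lemma hasDeriv (x : ℝ) : HasDerivAt (fun x : ℝ => Real.exp (-(x ^ 2) / 2)) (-(x * Real.exp (-(x ^ 2) / 2))) x := by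
  have h1 : HasDerivAt (fun x : ℝ => -(x ^ 2) / 2) (-x) x := by
    have := ((hasDerivAt_pow 2 x).neg).div_const 2
    refine this.congr_deriv ?_
    ring
  have h2 := h1.exp
  refine h2.congr_deriv ?_
  ring

lemma mom_one : ∫ x : ℝ, x ^ 1 * Real.exp (-(x ^ 2) / 2) = 0 := by
  have h1 := int_pow 1
  have h0 := int_pow 0
  simp only [pow_zero, one_mul] at h0
  simp only [pow_one] at h1 ⊢
  have h := integral_eq_zero_of_hasDerivAt_of_integrable hasDeriv h1.neg h0
  rw [integral_neg, neg_eq_zero] at h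
  exact h

lemma mom_add_two (k : ℕ) : ∫ x : ℝ, x ^ (k + 2) * Real.exp (-(x ^ 2) / 2) =
    (k + 1) * ∫ x : ℝ, x ^ k * Real.exp (-(x ^ 2) / 2) := by
  have hd : ∀ x : ℝ, HasDerivAt (fun x : ℝ => x ^ (k + 1) * Real.exp (-(x ^ 2) / 2))
      ((k + 1) * (x ^ k * Real.exp (-(x ^ 2) / 2)) - x ^ (k + 2) * Real.exp (-(x ^ 2) / 2)) x := by
    intro x
    have := (hasDerivAt_pow (k + 1) x).mul (hasDeriv x)
    refine this.congr_deriv ?_
    rw [Nat.add_sub_cancel]
    push_cast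
    ring
  have h := integral_eq_zero_of_hasDerivAt_of_integrable hd (((int_pow k).const_mul _).sub (int_pow (k + 2)))
    (int_pow (k + 1))
  rw [integral_sub ((int_pow k).const_mul _) (int_pow (k + 2)), integral_const_mul] at h
  linarith

lemma gm_add_two (k : ℕ) : gm (k + 2) = (k + 1) * gm k := by
  unfold gm
  by_cases hk : Even k
  · have hk2 : Even (k + 2) := hk.add even_two
    rw [if_pos hk, if_pos hk2]
    obtain ⟨m, rfl⟩ := hk
    have e1 : (m + m + 2) / 2 = m + 1 := by omega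
    have e2 : (m + m) / 2 = m := by omega
    rw [e1, e2, Nat.factorial_succ (m + m + 1), Nat.factorial_succ (m + m), Nat.factorial_succ m, pow_succ]
    have h4 : (m.factorial : ℝ) ≠ 0 := by exact_mod_cast m.factorial_ne_zero
    push_cast
    field_simp
    ring
  · have hk2 : ¬ Even (k + 2) := fun h => hk (by
      rcases h with ⟨m, hm⟩
      exact ⟨m - 1, by omega⟩)
    rw [if_neg hk, if_neg hk2, mul_zero]

/-- the moments of the Gaussian law -/
theorem mom (k : ℕ) : 1 / √(2 * Real.pi) * ∫ x : ℝ, x ^ k * Real.exp (-(x ^ 2) / 2) = gm k := by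
  have hpi : (0 : ℝ) < √(2 * Real.pi) := by
    have := Real.pi_pos
    positivity
  induction k using Nat.twoStepInduction with
  | zero =>
    simp only [pow_zero, one_mul]
    rw [mom_zero]
    simp [gm]
    field_simp
  | one =>
    rw [mom_one]
    simp [gm]
  | more k ih1 _ =>
    rw [mom_add_two, gm_add_two, ← ih1]
    ring

/-! ### the method of moments -/

variable {Ω : Type} [MeasurableSpace Ω] {ν : Measure Ω} {X : ℕ → Ω → ℝ} {Z : ℝ}

/-- the hypotheses -/
structure Hm (ν : Measure Ω) (X : ℕ → Ω → ℝ) (Z : ℝ) : Prop where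
  fin : IsFiniteMeasure ν
  tot : ν.real Set.univ = Z
  meas : ∀ n, Measurable (X n)
  int : ∀ n k, Integrable (fun x => X n x ^ k) ν
  lim : ∀ k, Tendsto (fun n => ∫ x, X n x ^ k ∂ν) atTop (𝓝 (Z * gm k))

lemma exp_int (h : Hm ν X Z) (s : ℝ) (n : ℕ) : Integrable (fun x => cexp (I * ((s * X n x : ℝ) : ℂ))) ν := by
  have := h.fin
  have hm : Measurable (fun x => cexp (I * ((s * X n x : ℝ) : ℂ))) :=
    Complex.measurable_exp.comp ((Complex.measurable_ofReal.comp ((h.meas n).const_mul s)).const_mul I)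
  refine (integrable_const (1:ℝ)).mono' hm.aestronglyMeasurable ?_
  refine Eventually.of_forall fun x => ?_
  rw [mul_comm]; exact (norm_exp_ofReal_mul_I _).le

lemma char_approx (h : Hm ν X Z) (s : ℝ) (K n : ℕ) :
    ‖(∫ x, cexp (I * ((s * X n x : ℝ) : ℂ)) ∂ν) -
      ∑ j ∈ Finset.range (2 * K), (I * s) ^ j / (j.factorial : ℂ) * ((∫ x, X n x ^ j ∂ν : ℝ) : ℂ)‖ ≤
      s ^ (2 * K) / ((2 * K).factorial : ℝ) * ∫ x, X n x ^ (2 * K) ∂ν := by
  have := h.fin
  have hS : Integrable (fun x => Sm (2 * K) (s * X n x)) ν := by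
    unfold Sm
    refine integrable_finsetSum _ fun j _ => ?_
    have h1 : Integrable (fun x => (I * s) ^ j / (j.factorial : ℂ) * ((X n x ^ j : ℝ) : ℂ)) ν :=
      ((h.int n j).ofReal (𝕜 := ℂ)).const_mul ((I * s) ^ j / (j.factorial : ℂ))
    refine h1.congr (Eventually.of_forall fun x => ?_)
    simp only
    push_cast
    ring
  have e1 : ∫ x, Sm (2 * K) (s * X n x) ∂ν =
      ∑ j ∈ Finset.range (2 * K), (I * s) ^ j / (j.factorial : ℂ) * ((∫ x, X n x ^ j ∂ν : ℝ) : ℂ) := by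
    unfold Sm
    rw [integral_finsetSum]
    · refine Finset.sum_congr rfl fun j _ => ?_
      rw [← integral_complex_ofReal, ← integral_const_mul]
      congr 1
      funext x
      push_cast
      ring
    · intro j _
      have h1 : Integrable (fun x => (I * s) ^ j / (j.factorial : ℂ) * ((X n x ^ j : ℝ) : ℂ)) ν :=
        ((h.int n j).ofReal (𝕜 := ℂ)).const_mul ((I * s) ^ j / (j.factorial : ℂ))
      refine h1.congr (Eventually.of_forall fun x => ?_)
      simp only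
      push_cast
      ring
  rw [← e1, ← integral_sub (exp_int h s n) hS]
  have e2 : s ^ (2 * K) / ((2 * K).factorial : ℝ) * ∫ x, X n x ^ (2 * K) ∂ν =
      ∫ x, s ^ (2 * K) / ((2 * K).factorial : ℝ) * X n x ^ (2 * K) ∂ν := by
    rw [integral_const_mul]
  rw [e2]
  refine norm_integral_le_of_norm_le ((h.int n (2 * K)).const_mul _) (Eventually.of_forall fun x => ?_)
  refine (tay (2 * K) (s * X n x)).trans (le_of_eq ?_)
  rw [← abs_pow, abs_of_nonneg (by rw [pow_mul]; positivity), mul_pow]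
  ring

lemma gm_even (s : ℝ) (K : ℕ) : s ^ (2 * K) / ((2 * K).factorial : ℝ) * (Z * gm (2 * K)) =
    Z * ((s ^ 2 / 2) ^ K / (K.factorial : ℝ)) := by
  have e2 : gm (2 * K) = ((2 * K).factorial : ℝ) / (2 ^ K * (K.factorial : ℝ)) := by
    unfold gm; rw [if_pos ⟨K, by ring⟩, Nat.mul_div_cancel_left K (by norm_num)]
  have h4 : (K.factorial : ℝ) ≠ 0 := by exact_mod_cast K.factorial_ne_zero
  have h5 : ((2 * K).factorial : ℝ) ≠ 0 := by exact_mod_cast (2 * K).factorial_ne_zero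
  rw [e2, div_pow, pow_mul]
  field_simp

lemma char_lim (h : Hm ν X Z) (s : ℝ) :
    Tendsto (fun n => ∫ x, cexp (I * ((s * X n x : ℝ) : ℂ)) ∂ν) atTop
      (𝓝 (Z * cexp ((-(s ^ 2) / 2 : ℝ) : ℂ))) := by
  rw [Metric.tendsto_atTop]
  intro ε hε
  have hB : Tendsto (fun K : ℕ => (Z : ℂ) * ∑ j ∈ Finset.range (2 * K), (I * s) ^ j / (j.factorial : ℂ) * (gm j : ℂ))
      atTop (𝓝 ((Z : ℂ) * cexp ((-(s ^ 2) / 2 : ℝ) : ℂ))) := (sum_gm_tendsto s).const_mul _
  have hC : Tendsto (fun K : ℕ => Z * ((s ^ 2 / 2) ^ K / (K.factorial : ℝ))) atTop (𝓝 (Z * 0)) :=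
    (FloorSemiring.tendsto_pow_div_factorial_atTop (s ^ 2 / 2)).const_mul Z
  rw [mul_zero] at hC
  rw [Metric.tendsto_atTop] at hB hC
  obtain ⟨K1, hK1⟩ := hB (ε / 4) (by positivity)
  obtain ⟨K2, hK2⟩ := hC (ε / 4) (by positivity)
  set K := max K1 K2 with hK
  have hB' := hK1 K (le_max_left _ _)
  have hC' := hK2 K (le_max_right _ _)
  have hb : Tendsto (fun n => ∑ j ∈ Finset.range (2 * K), (I * s) ^ j / (j.factorial : ℂ) *
      ((∫ x, X n x ^ j ∂ν : ℝ) : ℂ)) atTop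
      (𝓝 ((Z : ℂ) * ∑ j ∈ Finset.range (2 * K), (I * s) ^ j / (j.factorial : ℂ) * (gm j : ℂ))) := by
    have e : (Z : ℂ) * ∑ j ∈ Finset.range (2 * K), (I * s) ^ j / (j.factorial : ℂ) * (gm j : ℂ) =
        ∑ j ∈ Finset.range (2 * K), (I * s) ^ j / (j.factorial : ℂ) * ((Z * gm j : ℝ) : ℂ) := by
      rw [Finset.mul_sum]
      refine Finset.sum_congr rfl fun j _ => ?_
      push_cast; ring
    rw [e]
    refine tendsto_finsetSum _ fun j _ => ?_
    exact ((Complex.continuous_ofReal.tendsto _).comp (h.lim j)).const_mul _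
  have hc : Tendsto (fun n => s ^ (2 * K) / ((2 * K).factorial : ℝ) * ∫ x, X n x ^ (2 * K) ∂ν) atTop
      (𝓝 (s ^ (2 * K) / ((2 * K).factorial : ℝ) * (Z * gm (2 * K)))) := (h.lim (2 * K)).const_mul _
  rw [gm_even] at hc
  rw [Metric.tendsto_atTop] at hb hc
  obtain ⟨N1, hN1⟩ := hb (ε / 4) (by positivity)
  obtain ⟨N2, hN2⟩ := hc (ε / 4) (by positivity)
  refine ⟨max N1 N2, fun n hn => ?_⟩
  have h1 := hN1 n ((le_max_left _ _).trans hn)
  have h2 := hN2 n ((le_max_right _ _).trans hn)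
  have h3 := char_approx h s K n
  rw [Real.dist_eq] at h2 hC'
  rw [sub_zero] at hC'
  have h4 := (abs_lt.1 h2).2
  have h5 := (abs_lt.1 hC').2
  rw [dist_eq_norm] at h1 hB' ⊢
  calc _ = ‖((∫ x, cexp (I * ((s * X n x : ℝ) : ℂ)) ∂ν) -
      ∑ j ∈ Finset.range (2 * K), (I * s) ^ j / (j.factorial : ℂ) * ((∫ x, X n x ^ j ∂ν : ℝ) : ℂ)) +
      ((∑ j ∈ Finset.range (2 * K), (I * s) ^ j / (j.factorial : ℂ) * ((∫ x, X n x ^ j ∂ν : ℝ) : ℂ)) -
      (Z : ℂ) * ∑ j ∈ Finset.range (2 * K), (I * s) ^ j / (j.factorial : ℂ) * (gm j : ℂ)) +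
      ((Z : ℂ) * ∑ j ∈ Finset.range (2 * K), (I * s) ^ j / (j.factorial : ℂ) * (gm j : ℂ) -
      Z * cexp ((-(s ^ 2) / 2 : ℝ) : ℂ))‖ := by congr 1; ring
    _ ≤ _ := norm_add₃_le
    _ < ε := by linarith

/-- the normalised law -/
def nu (ν : Measure Ω) (X : ℕ → Ω → ℝ) (n : ℕ) : Measure ℝ := (ν Set.univ)⁻¹ • ν.map (X n)

lemma nu_prob (h : Hm ν X Z) (hZ : 0 < Z) (n : ℕ) : IsProbabilityMeasure (nu ν X n) := by
  have := h.fin
  unfold nu
  refine ⟨?_⟩
  rw [Measure.smul_apply, Measure.map_apply (h.meas n) MeasurableSet.univ, Set.preimage_univ, smul_eq_mul]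
  refine ENNReal.inv_mul_cancel ?_ (measure_ne_top _ _)
  intro h1
  have := h.tot
  rw [Measure.real, h1] at this
  simp at this
  linarith

lemma nu_char (h : Hm ν X Z) (n : ℕ) (s : ℝ) :
    charFun (nu ν X n) s = (Z : ℂ)⁻¹ * ∫ x, cexp (I * ((s * X n x : ℝ) : ℂ)) ∂ν := by
  unfold nu
  rw [charFun_apply_real, integral_smul_measure, integral_map (h.meas n).aemeasurable]
  · rw [ENNReal.toReal_inv, ← h.tot]
    simp only [Measure.real]
    rw [Complex.real_smul]
    push_cast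
    congr 1
    congr 1
    funext x
    congr 1
    ring
  · exact (Continuous.measurable (by fun_prop)).aestronglyMeasurable

/-- **The method of moments.** -/
theorem weak (h : Hm ν X Z) (hZ : 0 < Z) (g : ℝ → ℝ) (hg : Continuous g) (hb : ∃ M, ∀ x, |g x| ≤ M) :
    Tendsto (fun n => ∫ x, g (X n x) ∂ν) atTop
      (𝓝 (Z * (1 / √(2 * Real.pi) * ∫ x : ℝ, g x * Real.exp (-(x ^ 2) / 2)))) := by
  set P : ℕ → ProbabilityMeasure ℝ := fun n => ⟨nu ν X n, nu_prob h hZ n⟩ with hP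
  set G : ProbabilityMeasure ℝ := ⟨gaussianReal 0 1, inferInstance⟩ with hG
  have hZc : (Z : ℂ) ≠ 0 := by exact_mod_cast hZ.ne'
  have hlim : Tendsto P atTop (𝓝 G) := by
    refine ProbabilityMeasure.tendsto_iff_tendsto_charFun.2 fun s => ?_
    have e1 : charFun (G : Measure ℝ) s = (Z : ℂ)⁻¹ * (Z * cexp ((-(s ^ 2) / 2 : ℝ) : ℂ)) := by
      show charFun (gaussianReal 0 1) s = _
      rw [charFun_gaussianReal, ← mul_assoc, inv_mul_cancel₀ hZc, one_mul]
      congr 1
      push_cast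
      ring
    rw [e1]
    refine ((char_lim h s).const_mul (Z : ℂ)⁻¹).congr fun n => ?_
    exact (nu_char h n s).symm
  obtain ⟨M, hM⟩ := hb
  have hM' : ∀ x y, dist (g x) (g y) ≤ 2 * M := fun x y => by
    rw [Real.dist_eq]
    have := abs_sub (g x) (g y)
    linarith [hM x, hM y]
  set gb : ℝ →ᵇ ℝ := ⟨⟨g, hg⟩, 2 * M, hM'⟩ with hgb
  have h1 := (ProbabilityMeasure.tendsto_iff_forall_integral_tendsto.1 hlim) gb
  have e1 : ∀ n, Z * ∫ x, gb x ∂(P n : Measure ℝ) = ∫ x, g (X n x) ∂ν := by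
    intro n
    show Z * ∫ x, g x ∂(nu ν X n) = _
    unfold nu
    rw [integral_smul_measure, integral_map (h.meas n).aemeasurable hg.aestronglyMeasurable, ENNReal.toReal_inv]
    have : (ν Set.univ).toReal = Z := h.tot
    rw [this, smul_eq_mul, ← mul_assoc, mul_inv_cancel₀ hZ.ne', one_mul]
  have e2 : ∫ x, gb x ∂(G : Measure ℝ) = 1 / √(2 * Real.pi) * ∫ x : ℝ, g x * Real.exp (-(x ^ 2) / 2) := by
    show ∫ x, g x ∂(gaussianReal 0 1) = _
    rw [integral_gaussianReal_eq_integral_smul (by norm_num), ← integral_const_mul]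
    congr 1
    funext x
    rw [gaussianPDFReal, smul_eq_mul]
    simp only [NNReal.coe_one, mul_one, sub_zero, one_div]
    ring
  have h2 := h1.const_mul Z
  rw [e2] at h2
  exact h2.congr e1

end

end Pool.Agent.U766.SN.GM
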