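import Mathlib
import Pool.Agent.N889.SN.Cusp

/-!
# Control by finitely many Hecke translates
-/

set_option autoImplicit false

open Finset

namespace Pool.Agent.U766.SN

open Pool.Agent.N889.SN (Per)

/-- `w` is the image of `z` under an integral matrix of positive determinant with entries at most `k` -/
def Reach (k : ℕ) (z w : ℂ) : Prop :=
  ∃ a b c d : ℤ, |a| ≤ k ∧ |b| ≤ k ∧ |c| ≤ k ∧ |d| ≤ k ∧ 0 < a * d - b * c ∧ w = (a * z + b) / (c * z + d)

lemma den_ne {z : ℂ} (hz : 0 < z.im) {a b c d : ℤ} (h : 0 < a * d - b * c) : (c : ℂ) * z + d ≠ 0 := by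
  intro h0
  have him := congrArg Complex.im h0
  have hre := congrArg Complex.re h0
  simp at him hre
  rcases him with hc | hz0
  · rw [hc] at hre
    simp at hre
    rw [hc, hre] at h
    simp at h
  · linarith

lemma im_moeb {z : ℂ} {a b c d : ℤ} :
    (((a : ℂ) * z + b) / (c * z + d)).im = (a * d - b * c) * z.im / Complex.normSq (c * z + d) := by
  rw [Complex.div_im]
  simp only [Complex.add_re, Complex.add_im, Complex.mul_re, Complex.mul_im, Complex.intCast_re, Complex.intCast_im]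
  ring

lemma Reach.im_pos {k : ℕ} {z w : ℂ} (hz : 0 < z.im) (h : Reach k z w) : 0 < w.im := by
  obtain ⟨a, b, c, d, -, -, -, -, hdet, rfl⟩ := h
  rw [im_moeb]
  have h1 : 0 < Complex.normSq (c * z + d) := Complex.normSq_pos.2 (den_ne hz hdet)
  have h2 : (0 : ℝ) < (a * d - b * c) := by exact_mod_cast hdet
  positivity

lemma Reach.mono {k l : ℕ} (hkl : k ≤ l) {z w : ℂ} (h : Reach k z w) : Reach l z w := by
  obtain ⟨a, b, c, d, h1, h2, h3, h4, h5, h6⟩ := h
  have : (k : ℤ) ≤ l := by exact_mod_cast hkl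
  exact ⟨a, b, c, d, h1.trans this, h2.trans this, h3.trans this, h4.trans this, h5, h6⟩

lemma Reach.trans {k l : ℕ} {z w v : ℂ} (hz : 0 < z.im) (h : Reach k z w) (h' : Reach l w v) :
    Reach (2 * k * l) z v := by
  have hw := h.im_pos hz
  obtain ⟨a, b, c, d, h1, h2, h3, h4, h5, rfl⟩ := h
  obtain ⟨a', b', c', d', h1', h2', h3', h4', h5', rfl⟩ := h'
  have aux : ∀ x y x' y' : ℤ, |x| ≤ k → |y| ≤ k → |x'| ≤ l → |y'| ≤ l → |x' * x + y' * y| ≤ ((2 * k * l : ℕ) : ℤ) := by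
    intro x y x' y' hx hy hx' hy'
    calc |x' * x + y' * y| ≤ |x' * x| + |y' * y| := abs_add_le _ _
      _ = |x'| * |x| + |y'| * |y| := by rw [abs_mul, abs_mul]
      _ ≤ l * k + l * k := by gcongr
      _ = _ := by push_cast; ring
  refine ⟨a' * a + b' * c, a' * b + b' * d, c' * a + d' * c, c' * b + d' * d, aux _ _ _ _ h1 h3 h1' h2',
    aux _ _ _ _ h2 h4 h1' h2', aux _ _ _ _ h1 h3 h3' h4', aux _ _ _ _ h2 h4 h3' h4', ?_, ?_⟩
  · have : (a' * a + b' * c) * (c' * b + d' * d) - (a' * b + b' * d) * (c' * a + d' * c) =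
        (a' * d' - b' * c') * (a * d - b * c) := by ring
    rw [this]
    positivity
  · have hd := den_ne hz h5
    have hd' := den_ne hw h5'
    have e1 : (a' : ℂ) * ((a * z + b) / (c * z + d)) + b' = ((a' * a + b' * c) * z + (a' * b + b' * d)) / (c * z + d) := by
      rw [eq_div_iff hd, add_mul, mul_assoc, div_mul_cancel₀ _ hd]
      ring
    have e2 : (c' : ℂ) * ((a * z + b) / (c * z + d)) + d' = ((c' * a + d' * c) * z + (c' * b + d' * d)) / (c * z + d) := by
      rw [eq_div_iff hd, add_mul, mul_assoc, div_mul_cancel₀ _ hd]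
      ring
    rw [e1, e2, div_div_div_cancel_right₀ hd]
    push_cast
    ring

lemma Reach.refl (z : ℂ) : Reach 1 z z := ⟨1, 0, 0, 1, by simp, by simp, by simp, by simp, by norm_num, by simp⟩

lemma Reach.neg_inv (z : ℂ) : Reach 1 z (-z⁻¹) :=
  ⟨0, -1, 1, 0, by simp, by simp, by simp, by simp, by norm_num, by simp [neg_div]⟩

lemma Reach.int {n : ℤ} {k : ℕ} (hk : 1 ≤ k) (hn : |n| ≤ k) (z : ℂ) : Reach k z (z + n) :=
  ⟨1, n, 0, 1, by simpa using hk, hn, by simp, by simpa using hk, by norm_num, by simp⟩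

lemma Reach.affine {k a d : ℕ} {b : ℤ} (ha : 0 < a) (hd : 0 < d) (hak : a ≤ k) (hbk : |b| ≤ k) (hdk : d ≤ k) (z : ℂ) :
    Reach k z ((a * z + b) / d) :=
  ⟨a, b, 0, d, by simpa using hak, hbk, by simp, by simpa using hdk, by
    have : (0 : ℤ) < a * d := by positivity
    linarith, by simp⟩

/-- the points reached from a compact set are bounded -/
lemma Reach.bound {k : ℕ} {z w : ℂ} {ρ y : ℝ} (hz : ‖z‖ ≤ ρ) (hy : y ≤ z.im) (hy0 : 0 < y) (h : Reach k z w) :
    ‖w‖ ≤ (k * ρ + k) / min y 1 := by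
  have hz0 : 0 < z.im := hy0.trans_le hy
  obtain ⟨a, b, c, d, h1, h2, h3, h4, h5, rfl⟩ := h
  have hden : min y 1 ≤ ‖(c : ℂ) * z + d‖ := by
    by_cases hc : c = 0
    · subst hc
      have hd : d ≠ 0 := by
        rintro rfl
        simp at h5
      have hd1 : 1 ≤ |d| := Int.one_le_abs hd
      refine (min_le_right _ _).trans ?_
      simp only [Int.cast_zero, zero_mul, zero_add]
      rw [Complex.norm_intCast]
      exact_mod_cast hd1
    · have hc1 : 1 ≤ |c| := Int.one_le_abs hc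
      refine (min_le_left _ _).trans ?_
      have e : ((c : ℂ) * z + d).im = c * z.im := by simp
      have h6 := Complex.abs_im_le_norm ((c : ℂ) * z + d)
      rw [e, abs_mul, abs_of_pos hz0] at h6
      have h7 : (1 : ℝ) ≤ |(c : ℝ)| := by exact_mod_cast hc1
      nlinarith
  have hmin : 0 < min y 1 := lt_min hy0 one_pos
  rw [norm_div]
  have hnum : ‖(a : ℂ) * z + b‖ ≤ k * ρ + k := by
    have a1 : ‖(a : ℂ)‖ ≤ k := by
      rw [Complex.norm_intCast]
      exact_mod_cast h1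
    have a2 : ‖(b : ℂ)‖ ≤ k := by
      rw [Complex.norm_intCast]
      exact_mod_cast h2
    calc ‖(a : ℂ) * z + b‖ ≤ ‖(a : ℂ) * z‖ + ‖(b : ℂ)‖ := norm_add_le _ _
      _ = ‖(a : ℂ)‖ * ‖z‖ + ‖(b : ℂ)‖ := by rw [norm_mul]
      _ ≤ _ := by gcongr
  exact div_le_div₀ (le_trans (norm_nonneg _) hnum) hnum hmin hden

/-- the functions considered -/
structure Good (K : ℕ → ℝ) (U : ℂ → ℂ) : Prop where
  per : Per K U
  inv : ∀ z : ℂ, 0 < z.im → U (-z⁻¹) = U z

/-- the values at the points of `A` are controlled by the values at the points of `B` reached with entries at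
most `k` -/
def Ctl (K : ℕ → ℝ) (k : ℕ) (C : ℝ) (A B : Set ℂ) : Prop :=
  ∀ U : ℂ → ℂ, Good K U → ∀ z ∈ A, ∀ m : ℝ, 0 ≤ m → (∀ w ∈ B, Reach k z w → ‖U w‖ ≤ m) → ‖U z‖ ≤ C * m

lemma Ctl.comp {K : ℕ → ℝ} {k l : ℕ} {C D : ℝ} {A B E : Set ℂ} (hA : A ⊆ {z : ℂ | 0 < z.im}) (hD : 0 ≤ D)
    (h : Ctl K k C A B) (h' : Ctl K l D B E) : Ctl K (2 * k * l) (C * D) A E := by
  intro U hU z hz m hm hE
  rw [mul_assoc]
  refine h U hU z hz (D * m) (by positivity) fun w hw hzw => ?_
  exact h' U hU w hw m hm fun v hv hwv => hE v hv (hzw.trans (hA hz) hwv)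

end Pool.Agent.U766.SN
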