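import Mathlib
import Pool.Agent.U766.SN.Reach

/-!
# Horocycles and compact sets, with finitely many Hecke translates
-/

set_option autoImplicit false

open Finset Filter

namespace Pool.Agent.U766.SN

open Pool.Agent.N889.SN (Per exists_N exists_bound im_neg_inv)

/-- **Horocycles.** -/
theorem horo (K : ℕ → ℝ) (hK : ∀ p, 0 ≤ K p) (δ y₀ Y R : ℝ) (hδ : 0 < δ) (hy₀ : 0 < y₀) :
    ∃ C Y₂ : ℝ, ∃ k : ℕ, 0 < C ∧ ∀ U : ℂ → ℂ, Per K U →
    ∀ (z : ℂ) (ξ : ℝ), y₀ ≤ z.im → z.im ≤ Y → |z.re| ≤ R → |ξ| ≤ R → ∀ m : ℝ, 0 ≤ m →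
    (∀ w : ℂ, Reach k z w → ((w.im = z.im ∧ ξ ≤ w.re ∧ w.re ≤ ξ + δ) ∨ (Y ≤ w.im ∧ w.im ≤ Y₂)) → ‖U w‖ ≤ m) →
    ‖U z‖ ≤ C * m := by
  classical
  obtain ⟨N, hN0, hN1, hNP, hNt⟩ := exists_N δ hδ (⌈Y / y₀⌉₊)
  set L : ℕ := ⌊δ * N⌋₊ with hL
  have hLt : Nat.totient N ≤ L := Nat.le_floor hNt
  have hNr : (0 : ℝ) < N := by exact_mod_cast hN0
  have hNc : (N : ℂ) ≠ 0 := by exact_mod_cast hN0.ne'
  have hLN : (L : ℝ) ≤ δ * N := Nat.floor_le (by positivity)
  obtain ⟨C₀, hC₀, hbound⟩ := exists_bound hN0 hN1 L hLt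
  have : NeZero N := ⟨hN0.ne'⟩
  obtain ⟨κ, hκ⟩ : ∃ κ, κ = ∑ p ∈ N.primeFactors, K p := ⟨_, rfl⟩
  have hκ0 : 0 ≤ κ := by rw [hκ]; exact Finset.sum_nonneg fun p _ => hK p
  have hκp : ∀ p, p.Prime → p ∣ N → K p ≤ κ := fun p hp hpN => by
    rw [hκ]
    exact Finset.single_le_sum (fun q _ => hK q) (Nat.mem_primeFactors.2 ⟨hp, hpN, hN0.ne'⟩)
  set b₁ : ℕ := ⌈(N : ℝ) * (2 * R)⌉₊ + 2 + N + L with hb₁
  set k : ℕ := N * N * (N + b₁) with hk
  refine ⟨C₀ * (κ + 1), N * (N * Y), k, by positivity, fun U hU z ξ hz1 hz2 hzR hξR m hm hadm => ?_⟩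
  have hz : 0 < z.im := by linarith
  have hY : 0 < Y := by linarith
  -- the points on the horocycle
  set b₀ : ℤ := ⌈(N : ℝ) * (ξ - z.re)⌉ with hb₀
  have hb₀' : |b₀| ≤ (⌈(N : ℝ) * (2 * R)⌉₊ : ℤ) + 1 := by
    have h1 : (N : ℝ) * (ξ - z.re) ≤ b₀ := Int.le_ceil _
    have h2 : (b₀ : ℝ) < (N : ℝ) * (ξ - z.re) + 1 := Int.ceil_lt_add_one _
    have h3 := abs_le.1 hzR
    have h4 := abs_le.1 hξR
    have h5 : (N : ℝ) * (ξ - z.re) ≤ N * (2 * R) := by gcongr; linarith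
    have h6 : -(N * (2 * R)) ≤ (N : ℝ) * (ξ - z.re) := by
      have : -(2 * R) ≤ ξ - z.re := by linarith
      nlinarith
    have h7 : (N : ℝ) * (2 * R) ≤ ⌈(N : ℝ) * (2 * R)⌉₊ := Nat.le_ceil _
    rw [abs_le]
    constructor
    · have : (-((⌈(N : ℝ) * (2 * R)⌉₊ : ℤ) + 1 : ℤ) : ℝ) ≤ b₀ := by
        push_cast
        linarith
      exact_mod_cast this
    · have : (b₀ : ℝ) ≤ (((⌈(N : ℝ) * (2 * R)⌉₊ : ℤ) + 1 : ℤ) : ℝ) := by
        push_cast
        linarith
      exact_mod_cast this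
  let pt : ℤ → ℂ := fun k => z + ((b₀ + k : ℤ) : ℂ) / N
  have hNN : N ≤ N * N := Nat.le_mul_of_pos_left _ hN0
  have hb₁0 : 0 < b₁ := by omega
  -- the points are reached
  have reach : ∀ (c : ℕ) (j : ℤ), 0 < c → c ≤ N * N → |b₀ + j| ≤ b₁ → Reach k z (c * pt j) := by
    intro c j hc0 hc hj
    have e : (c : ℂ) * pt j = (((c * N : ℕ) : ℂ) * z + ((c * (b₀ + j) : ℤ) : ℂ)) / N := by
      show (c : ℂ) * (z + _) = _
      push_cast
      field_simp
    rw [e]
    refine Reach.affine (Nat.mul_pos hc0 hN0) hN0 ?_ ?_ ?_ z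
    · rw [hk]
      exact Nat.mul_le_mul hc (by omega)
    · rw [abs_mul, hk]
      push_cast
      have h1 : |(c : ℤ)| ≤ N * N := by
        rw [Nat.abs_cast]
        exact_mod_cast hc
      have h2 : |b₀ + j| ≤ (N : ℤ) + b₁ := hj.trans (by linarith [Int.natCast_nonneg N])
      exact mul_le_mul h1 h2 (abs_nonneg _) (by positivity)
    · rw [hk]
      calc N = N * 1 := (mul_one _).symm
        _ ≤ N * N * (N + b₁) := Nat.mul_le_mul hNN (by omega)
  have hval : ∀ b : ZMod N, |b₀ + (b.val : ℤ)| ≤ b₁ := by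
    intro b
    have h1 := ZMod.val_lt b
    have h2 := abs_le.1 hb₀'
    rw [abs_le]
    omega
  have hpt_im : ∀ k, (pt k).im = z.im := by
    intro k
    have e : ((((b₀ + k : ℤ) : ℂ)) / (N : ℂ)).im = 0 := by
      rw [show ((b₀ + k : ℤ) : ℂ) = (((b₀ + k : ℤ) : ℝ) : ℂ) by norm_cast,
        show (N : ℂ) = ((N : ℝ) : ℂ) by norm_cast, ← Complex.ofReal_div, Complex.ofReal_im]
    show (z + _).im = _
    rw [Complex.add_im, e, add_zero]
  have hpt_re : ∀ k, (pt k).re = z.re + (b₀ + k) / N := by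
    intro k
    have e : ((((b₀ + k : ℤ) : ℂ)) / (N : ℂ)).re = (b₀ + k) / N := by
      rw [show ((b₀ + k : ℤ) : ℂ) = (((b₀ + k : ℤ) : ℝ) : ℂ) by norm_cast,
        show (N : ℂ) = ((N : ℝ) : ℂ) by norm_cast, ← Complex.ofReal_div, Complex.ofReal_re]
      push_cast
      rfl
    show (z + _).re = _
    rw [Complex.add_re, e]
  have hpt_pos : ∀ k, 0 < (pt k).im := fun k => by rw [hpt_im]; exact hz
  have hper : ∀ k m : ℤ, U (pt (k + m * N)) = U (pt k) := by
    intro k m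
    rw [← hU.int m (hpt_pos k)]
    congr 1
    show z + _ = z + _ + _
    push_cast
    field_simp
    ring
  let f : ZMod N → ℂ := fun i => U (pt i.val)
  have hf : ∀ k : ℤ, f (k : ZMod N) = U (pt k) := by
    intro k
    show U (pt ((k : ZMod N).val)) = _
    rw [ZMod.val_intCast]
    have e : k = k % N + (k / N) * N := by
      have := Int.emod_add_mul_ediv k N
      linarith
    conv_rhs => rw [e]
    rw [hper]
  have hfn : ∀ k : ℕ, f (k : ZMod N) = U (pt k) := by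
    intro k
    have := hf (k : ℤ)
    rwa [Int.cast_natCast] at this
  set H : ℝ := (κ + 1) * m with hH
  have hH0 : 0 ≤ H := by positivity
  have hqH : m ≤ H := by
    rw [hH]
    nlinarith
  have h1 : ∀ i < L, ‖f (i : ZMod N)‖ ≤ H := by
    intro i hi
    rw [hfn]
    have hr : Reach k z (pt i) := by
      have := reach 1 i one_pos (by nlinarith) (by
        have h2 := abs_le.1 hb₀'
        rw [abs_le]
        omega)
      simpa using this
    refine (hadm _ hr (Or.inl ⟨hpt_im _, ?_, ?_⟩)).trans hqH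
    · rw [hpt_re]
      have h2 : (N : ℝ) * (ξ - z.re) ≤ b₀ := Int.le_ceil _
      have h3 : ξ - z.re ≤ (b₀ + ((i : ℤ) : ℝ)) / N := by
        rw [le_div_iff₀ hNr]
        have : (0 : ℝ) ≤ ((i : ℤ) : ℝ) := by exact_mod_cast Nat.zero_le i
        linarith
      linarith
    · rw [hpt_re]
      have h2 : (b₀ : ℝ) < (N : ℝ) * (ξ - z.re) + 1 := Int.ceil_lt_add_one _
      have h3 : (b₀ + ((i : ℤ) : ℝ)) / N ≤ ξ - z.re + δ := by
        rw [div_le_iff₀ hNr]
        have h4 : ((i : ℤ) : ℝ) + 1 ≤ L := by exact_mod_cast hi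
        linarith
      linarith
  have h2 : ∀ p, p.Prime → p ∣ N → ∀ b : ZMod N,
      ‖∑ j ∈ range p, f (b + ((j * (N / p) : ℕ) : ZMod N))‖ ≤ H := by
    intro p hp hpN b
    have hpr : (0 : ℝ) < p := by exact_mod_cast hp.pos
    have hpc : (p : ℂ) ≠ 0 := by exact_mod_cast hp.ne_zero
    have hpN1 : p ≤ N := Nat.le_of_dvd hN0 hpN
    have hpN' : (p : ℝ) ≤ N := by exact_mod_cast hpN1
    have e : ∑ j ∈ range p, f (b + ((j * (N / p) : ℕ) : ZMod N)) =
        ∑ j ∈ range p, U (pt b.val + (j : ℂ) / p) := by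
      refine Finset.sum_congr rfl fun j _ => ?_
      have e1 : b + ((j * (N / p) : ℕ) : ZMod N) = ((b.val + j * (N / p) : ℕ) : ZMod N) := by
        rw [Nat.cast_add, ZMod.natCast_zmod_val]
      rw [e1, hfn]
      congr 1
      show z + _ = z + _ + _
      obtain ⟨m, hm⟩ := hpN
      have hm' : N / p = m := by rw [hm]; exact Nat.mul_div_cancel_left _ hp.pos
      have hmc : (m : ℂ) ≠ 0 := by
        intro h0
        rw [hm] at hNc
        push_cast at hNc
        exact hNc (by rw [h0, mul_zero])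
      rw [hm']
      have hN' : (N : ℂ) = p * m := by rw [hm]; push_cast; rfl
      rw [hN']
      push_cast
      field_simp
      ring
    rw [e]
    have h3 := hU.line hp (hpt_pos b.val)
    have hKp := hκp p hp hpN
    have hpY : Y ≤ p * z.im := by
      have h4 : ⌈Y / y₀⌉₊ ≤ p := hNP p hp hpN
      have h5 : Y / y₀ ≤ p := (Nat.le_ceil _).trans (by exact_mod_cast h4)
      rw [div_le_iff₀ hy₀] at h5
      nlinarith
    have im1 : ((p : ℂ) * pt b.val).im = p * z.im := by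
      have : ((p : ℂ) * pt b.val).im = p * (pt b.val).im := by simp
      rw [this, hpt_im]
    have im2 : ((p : ℂ) * (p * pt b.val)).im = p * (p * z.im) := by
      have : ((p : ℂ) * (p * pt b.val)).im = p * ((p : ℂ) * pt b.val).im := by simp
      rw [this, im1]
    have hp1 : (1 : ℝ) ≤ p := by exact_mod_cast hp.one_lt.le
    have u1 : (p : ℝ) * z.im ≤ N * Y := mul_le_mul hpN' hz2 hz.le hNr.le
    have u2 : (p : ℝ) * (p * z.im) ≤ N * (N * Y) := mul_le_mul hpN' u1 (by positivity) hNr.le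
    have hN1' : (1 : ℝ) ≤ N := by exact_mod_cast hN0
    have r1 : Reach k z (p * pt b.val) := reach p _ hp.pos (hpN1.trans hNN) (hval b)
    have r2 : Reach k z (p * (p * pt b.val)) := by
      have := reach (p * p) _ (Nat.mul_pos hp.pos hp.pos) (Nat.mul_le_mul hpN1 hpN1) (hval b)
      rw [← mul_assoc]
      push_cast at this
      exact this
    have a1 := hadm (p * pt b.val) r1 (Or.inr ⟨by rw [im1]; exact hpY, by
      rw [im1]
      have : (N : ℝ) * Y ≤ N * (N * Y) := by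
        have : 0 < (N : ℝ) * Y := by positivity
        nlinarith
      linarith⟩)
    have a2 := hadm (p * (p * pt b.val)) r2 (Or.inr ⟨by
      rw [im2]
      have : 0 < (p : ℝ) * z.im := by positivity
      nlinarith, by rw [im2]; exact u2⟩)
    calc ‖∑ j ∈ range p, U (pt b.val + (j : ℂ) / p)‖
        ≤ K p * ‖U (p * pt b.val)‖ + ‖U (p * (p * pt b.val))‖ := h3
      _ ≤ κ * m + m := by gcongr
      _ = H := by rw [hH]; ring
  have h3 := hbound f H hH0 h2 h1 ((-b₀ : ℤ) : ZMod N)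
  rw [hf] at h3
  have e : pt (-b₀) = z := by
    show z + _ = _
    rw [add_neg_cancel]
    simp
  rw [e, hH] at h3
  rw [mul_assoc]
  exact h3

end Pool.Agent.U766.SN
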