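import Mathlib
import Pool.Agent.U766.SN.Horo2

/-!
# Compact sets are controlled by high points, with finitely many Hecke translates
-/

set_option autoImplicit false

open Finset Filter

namespace Pool.Agent.U766.SN

open Pool.Agent.N889.SN (Per im_neg_inv)

lemma norm_neg_inv_le {w : ℂ} {η : ℝ} (hη : 0 < η) (h : η ≤ ‖w‖) : |(-w⁻¹).re| ≤ 1 / η := by
  refine (Complex.abs_re_le_norm _).trans ?_
  rw [norm_neg, norm_inv, one_div]
  exact inv_anti₀ hη h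

/-- a thin band -/
theorem band (K : ℕ → ℝ) (hK : ∀ p, 0 ≤ K p) (Y R : ℝ) (hY : 1 ≤ Y) (hR : 0 ≤ R) :
    ∃ C Y₂ : ℝ, ∃ k : ℕ, 0 < C ∧ Ctl K k C {z : ℂ | 1 / (4 * Y) ≤ z.im ∧ z.im ≤ 1 / (2 * Y) ∧ |z.re| ≤ R}
      {w : ℂ | Y ≤ w.im ∧ w.im ≤ Y₂} := by
  have hY0 : 0 < Y := by linarith
  obtain ⟨C, Y₂, k, hC, h⟩ := horo K hK (1 / (4 * Y)) (1 / (4 * Y)) Y R (by positivity) (by positivity)
  refine ⟨C, max Y₂ (4 * Y), 2 * k * 1, hC, fun U hU z hz m hm hB => ?_⟩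
  obtain ⟨hz1, hz2, hzR⟩ := hz
  have hz0 : 0 < z.im := lt_of_lt_of_le (by positivity) hz1
  have hb : 1 / (2 * Y) ≤ Y := by
    rw [div_le_iff₀ (by positivity)]
    nlinarith
  refine h U hU.per z 0 hz1 (hz2.trans hb) hzR (by simpa using hR) m hm fun w hw h1 => ?_
  rcases h1 with ⟨h2, h3, h4⟩ | ⟨h2, h3⟩
  · have hη : 0 < w.im := by rw [h2]; exact hz0
    have hη1 : 1 / (4 * Y) ≤ w.im := by rw [h2]; exact hz1
    have hη2 : w.im ≤ 1 / (2 * Y) := by rw [h2]; exact hz2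
    rw [zero_add] at h4
    have h5 : w.re ^ 2 ≤ w.im ^ 2 := pow_le_pow_left₀ h3 (h4.trans hη1) 2
    rw [← hU.inv w hη]
    refine hB _ ⟨?_, ?_⟩ (hw.trans hz0 (Reach.neg_inv w))
    · rw [im_neg_inv, le_div_iff₀ (by positivity)]
      rw [le_div_iff₀ (by positivity)] at hη2
      nlinarith
    · refine le_trans ?_ (le_max_right _ _)
      rw [im_neg_inv, div_le_iff₀ (by positivity)]
      rw [div_le_iff₀ (by positivity)] at hη1
      nlinarith [sq_nonneg w.re]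
  · exact hB w ⟨h2, h3.trans (le_max_left _ _)⟩ (hw.mono (by omega))

/-- low points -/
theorem low (K : ℕ → ℝ) (hK : ∀ p, 0 ≤ K p) (Y η R : ℝ) (hY : 1 ≤ Y) (hη : 0 < η) (hη1 : η ≤ 1) :
    ∃ C Y₂ : ℝ, ∃ k : ℕ, 0 < C ∧ Ctl K k C {z : ℂ | η ≤ z.im ∧ z.im ≤ 1 ∧ |z.re| ≤ R}
      {w : ℂ | Y ≤ w.im ∧ w.im ≤ Y₂} := by
  have hY0 : 0 < Y := by linarith
  obtain ⟨C₁, Y₁, k₁, hC₁, h⟩ := horo K hK (η / 4) η Y (max R (2 * Y)) (by positivity) hη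
  obtain ⟨C₂, Y₂, k₂, hC₂, h'⟩ := band K hK Y (1 / η) hY (by positivity)
  refine ⟨C₁ * (C₂ + 1), max Y₁ Y₂, 2 * (2 * k₁ * 1) * k₂ + k₁, by positivity, fun U hU z hz m hm hB => ?_⟩
  obtain ⟨hz1, hz2, hzR⟩ := hz
  have hz : 0 < z.im := by linarith
  have hs : 0 ≤ 2 * Y * z.im - z.im ^ 2 := by nlinarith
  obtain ⟨ξ, hξ⟩ : ∃ ξ, ξ = Real.sqrt (2 * Y * z.im - z.im ^ 2) := ⟨_, rfl⟩
  have hξ0 : 0 ≤ ξ := by rw [hξ]; exact Real.sqrt_nonneg _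
  have hξ2 : ξ ^ 2 = 2 * Y * z.im - z.im ^ 2 := by rw [hξ]; exact Real.sq_sqrt hs
  have hξY : ξ ≤ 2 * Y := by
    by_contra hlt
    rw [not_le] at hlt
    nlinarith
  have key := h U hU.per z ξ hz1 (by linarith) (hzR.trans (le_max_left _ _))
    (by rw [abs_of_nonneg hξ0]; exact hξY.trans (le_max_right _ _)) ((C₂ + 1) * m) (by positivity) fun w hw h1 => ?_
  · rw [mul_assoc]
    exact key
  rcases h1 with ⟨h2, h3, h4⟩ | ⟨h2, h3⟩
  · have hwi : 0 < w.im := by rw [h2]; exact hz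
    have hre1 : ξ ^ 2 ≤ w.re ^ 2 := pow_le_pow_left₀ hξ0 h3 2
    have hre2 : w.re ^ 2 ≤ (ξ + η / 4) ^ 2 := pow_le_pow_left₀ (hξ0.trans h3) h4 2
    have hb1 : (-w⁻¹).im ≤ 1 / (2 * Y) := by
      rw [im_neg_inv, div_le_div_iff₀ (by positivity) (by positivity), h2]
      nlinarith
    have hb2 : 1 / (4 * Y) ≤ (-w⁻¹).im := by
      rw [im_neg_inv, div_le_div_iff₀ (by positivity) (by positivity), h2]
      have e1 : (ξ + η / 4) ^ 2 = ξ ^ 2 + ξ * η / 2 + η ^ 2 / 16 := by ring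
      have e2 : ξ * η / 2 ≤ Y * z.im := by nlinarith
      have e3 : η ^ 2 / 16 ≤ Y * z.im := by nlinarith
      nlinarith
    have hb3 : |(-w⁻¹).re| ≤ 1 / η := by
      refine norm_neg_inv_le hη ?_
      have h5 := Complex.abs_im_le_norm w
      rw [abs_of_pos hwi, h2] at h5
      exact hz1.trans h5
    have hv := h' U hU (-w⁻¹) ⟨hb2, hb1, hb3⟩ m hm fun u hu hur =>
      hB u ⟨hu.1, hu.2.trans (le_max_right _ _)⟩ (((hw.trans hz (Reach.neg_inv w)).trans hz hur).mono (by omega))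
    rw [hU.inv w hwi] at hv
    nlinarith
  · have h5 := hB w ⟨h2, h3.trans (le_max_left _ _)⟩ (hw.mono (by omega))
    nlinarith

/-- **Compact sets.** -/
theorem cusp (K : ℕ → ℝ) (hK : ∀ p, 0 ≤ K p) (Y : ℝ) (Ω : Set ℂ) (hΩ : IsCompact Ω) (hΩ' : Ω ⊆ {z : ℂ | 0 < z.im}) :
    ∃ C Y₂ : ℝ, ∃ k : ℕ, 0 < C ∧ Ctl K k C Ω {w : ℂ | Y ≤ w.im ∧ w.im ≤ Y₂} := by
  obtain ⟨a, b, ha, hb, hab⟩ : ∃ a b : ℝ, 0 < a ∧ a ≤ b ∧ ∀ z ∈ Ω, a ≤ z.im ∧ z.im ≤ b := by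
    rcases Ω.eq_empty_or_nonempty with h | h
    · exact ⟨1, 1, one_pos, le_rfl, by simp [h]⟩
    · obtain ⟨z₁, hz₁, h1⟩ := hΩ.exists_isMinOn h Complex.continuous_im.continuousOn
      obtain ⟨z₂, hz₂, h2⟩ := hΩ.exists_isMaxOn h Complex.continuous_im.continuousOn
      exact ⟨z₁.im, z₂.im, hΩ' hz₁, h1 hz₂, fun z hz => ⟨h1 hz, h2 hz⟩⟩
  obtain ⟨R, hR⟩ := hΩ.isBounded.exists_norm_le
  have hη : 0 < a / (4 + b ^ 2) := by positivity
  have hη1 : a / (4 + b ^ 2) ≤ 1 := by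
    rw [div_le_one (by positivity)]
    nlinarith [sq_nonneg (b - 1)]
  obtain ⟨C, Y₂, k, hC, h⟩ := low K hK (max Y 1) (a / (4 + b ^ 2)) 1 (le_max_right _ _) hη hη1
  set k₀ : ℕ := ⌈R⌉₊ + 2 with hk₀
  refine ⟨C, Y₂, 2 * (2 * k₀ * 1) * k, hC, fun U hU z hz m hm hB => ?_⟩
  obtain ⟨h1, h2⟩ := hab z hz
  have hz0 : 0 < z.im := hΩ' hz
  obtain ⟨n, hn⟩ : ∃ n : ℤ, n = ⌈1 - z.re⌉ := ⟨_, rfl⟩
  have n1 : 1 - z.re ≤ n := by rw [hn]; exact Int.le_ceil _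
  have n2 : (n : ℝ) < 1 - z.re + 1 := by rw [hn]; exact Int.ceil_lt_add_one _
  have hnk : |n| ≤ k₀ := by
    have h3 := abs_le.1 ((Complex.abs_re_le_norm z).trans (hR z hz))
    have h4 : R ≤ ⌈R⌉₊ := Nat.le_ceil _
    rw [abs_le]
    constructor
    · have : ((-(k₀ : ℤ) : ℤ) : ℝ) ≤ n := by
        rw [hk₀]
        push_cast
        linarith
      exact_mod_cast this
    · have : (n : ℝ) ≤ ((k₀ : ℤ) : ℝ) := by
        rw [hk₀]
        push_cast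
        linarith
      exact_mod_cast this
  have e1 : (z + (n : ℂ)).im = z.im := by simp
  have e2 : (z + (n : ℂ)).re = z.re + n := by simp
  have hp : 0 < (z + (n : ℂ)).im := by rw [e1]; exact hz0
  have e3 : U (-(z + n)⁻¹) = U z := by rw [hU.inv _ hp, hU.per.int n hz0]
  have hr1 : (1 : ℝ) ≤ (z.re + n) ^ 2 := by nlinarith
  have hr2 : (z.re + n) ^ 2 ≤ 4 := by nlinarith
  have i1 : a / (4 + b ^ 2) ≤ (-(z + (n : ℂ))⁻¹).im := by
    rw [im_neg_inv, e1, e2, div_le_div_iff₀ (by positivity) (by positivity)]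
    have h3 : z.im ^ 2 ≤ b ^ 2 := pow_le_pow_left₀ hz0.le h2 2
    exact mul_le_mul h1 (by linarith) (by positivity) hz0.le
  have i2 : (-(z + (n : ℂ))⁻¹).im ≤ 1 := by
    rw [im_neg_inv, e1, e2, div_le_one (by positivity)]
    nlinarith [sq_nonneg (z.im - 1)]
  have i3 : |(-(z + (n : ℂ))⁻¹).re| ≤ 1 := by
    have := norm_neg_inv_le (w := z + n) one_pos (by
      have h3 := Complex.abs_re_le_norm (z + n)
      rw [e2] at h3
      refine le_trans ?_ h3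
      have : 1 ≤ z.re + n := by linarith
      rw [abs_of_pos (by linarith)]
      exact this)
    simpa using this
  have r1 : Reach k₀ z (z + n) := Reach.int (by omega) hnk z
  have r2 : Reach (2 * k₀ * 1) z (-(z + n)⁻¹) := r1.trans hz0 (Reach.neg_inv _)
  have hk := h U hU _ ⟨i1, i2, i3⟩ m hm fun w hw hwr =>
    hB w ⟨(le_max_left _ _).trans hw.1, hw.2⟩ (r2.trans hz0 hwr)
  rw [e3] at hk
  exact hk

end Pool.Agent.U766.SN
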