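import Mathlib
import Pool.Agent.U766.SN.Cusp2
import Pool.Agent.U766.SN.Strip
import Pool.Agent.N889.SN.Fin
import Pool.Agent.Results.MP_8fded1_nt.EllipticPointIsHarmless

/-!
# Strips and discs, with finitely many Hecke translates, and integrals
-/

set_option autoImplicit false

open UpperHalfPlane MeasureTheory
open scoped MatrixGroups ENNReal

namespace Pool.Agent.U766.SN

open Pool.Agent.N889.SN (Per mat coe_mat mp)
open Pool.Agent.Results.MP_8fded1_nt.EllipticPointIsHarmless (invariance)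

lemma Good.smul {K : ℕ → ℝ} {U : ℂ → ℂ} (hU : Good K U) (g : SL(2, ℤ)) (z : ℍ) : U ((g • z : ℍ) : ℂ) = U z :=
  invariance (fun z hz => ⟨hU.per.per z hz, hU.inv z hz⟩) g z

/-- **Strips.** -/
theorem strip2 (K : ℕ → ℝ) (hK : ∀ p, 0 ≤ K p) (η : ℝ) (hη : 0 < η) (a : ℝ) (ha : 0 < a) (Ω : Set ℂ)
    (hΩ : IsCompact Ω) (hΩ' : Ω ⊆ {z : ℂ | 0 < z.im}) :
    ∃ C : ℝ, ∃ k : ℕ, 0 < C ∧ Ctl K k C Ω {w : ℂ | a < w.im ∧ w.im < (1 + η) * a} := by
  obtain ⟨H, C, hH, hC, B, h⟩ := above K hK η hη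
  obtain ⟨C₁, Y, k₁, hC₁, h1⟩ := cusp K hK (H * a) Ω hΩ hΩ'
  set k₂ : ℕ := ⌈Y / a⌉₊ + 1 with hk₂
  have h2 : Ctl K k₂ (C * (|Y / a| + 1) ^ B) {w : ℂ | H * a ≤ w.im ∧ w.im ≤ Y} {w : ℂ | a < w.im ∧ w.im < (1 + η) * a} := by
    intro U hU w hw m hm hB
    have hw0 : 0 < w.im := lt_of_lt_of_le (by positivity) hw.1
    have h3 := (h a ha w hw.1).2 U hU.per m hm (fun x hx => by
      have hx' := Pts_im hx
      refine hB x hx' ?_
      obtain ⟨i, j, t, ht, h4, h5, rfl⟩ := hx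
      have hn0 : (0 : ℝ) < 2 ^ i * 3 ^ j := by positivity
      have hn : ((2 ^ i * 3 ^ j : ℕ) : ℝ) ≤ Y / a := by
        push_cast
        rw [lt_div_iff₀ hn0] at h4
        rw [le_div_iff₀ ha]
        have := hw.2
        linarith
      have hn' : 2 ^ i * 3 ^ j ≤ k₂ := by
        have h6 : ((2 ^ i * 3 ^ j : ℕ) : ℝ) ≤ ⌈Y / a⌉₊ := hn.trans (Nat.le_ceil _)
        have h7 : 2 ^ i * 3 ^ j ≤ ⌈Y / a⌉₊ := by exact_mod_cast h6
        omega
      have hr := Reach.affine (k := k₂) (a := 1) (b := (t : ℤ)) (d := 2 ^ i * 3 ^ j) one_pos (by positivity) (by omega)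
        (by rw [Nat.abs_cast]; exact_mod_cast (by omega : t ≤ k₂)) hn' w
      simpa using hr)
    have e : w.im / a ≤ |Y / a| + 1 := by
      calc w.im / a ≤ Y / a := by
            have := hw.2
            gcongr
        _ ≤ |Y / a| := le_abs_self _
        _ ≤ |Y / a| + 1 := by linarith
    refine h3.trans ?_
    gcongr
  exact ⟨_, _, by positivity, h1.comp hΩ' (by positivity) h2⟩

/-- the disc as a subset of the plane -/
def disc (z₀ : ℍ) (r : ℝ) : Set ℂ := {v : ℂ | ∃ w : ℍ, (w : ℂ) = v ∧ dist w z₀ < r}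

lemma dist_bound' (z w : ℍ) (h : z.im ≤ w.im) :
    dist w z ≤ |w.re - z.re| / z.im + (Real.log w.im - Real.log z.im) := by
  set v : ℍ := ⟨⟨w.re, z.im⟩, z.im_pos⟩ with hv
  have hvre : v.re = w.re := rfl
  have hvim : v.im = z.im := rfl
  have h1 : dist w v = Real.log w.im - Real.log z.im := by
    rw [dist_of_re_eq hvre.symm, hvim, Real.dist_eq, abs_of_nonneg]
    have := Real.log_le_log z.im_pos h
    linarith
  have h2 : dist v z ≤ |w.re - z.re| / z.im := by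
    refine (dist_le_dist_coe_div_sqrt v z).trans (le_of_eq ?_)
    have e1 : √(v.im * z.im) = z.im := by
      rw [hvim, Real.sqrt_mul_self z.im_pos.le]
    have e2 : dist (v : ℂ) z = |w.re - z.re| := by
      rw [Complex.dist_of_im_eq (by exact hvim), Real.dist_eq]
      rfl
    rw [e1, e2]
  calc dist w z ≤ dist w v + dist v z := dist_triangle _ _ _
    _ ≤ _ := by linarith

lemma norm_bound {Ω : Set ℂ} (hΩ : IsCompact Ω) (hΩ' : Ω ⊆ {z : ℂ | 0 < z.im}) (k : ℕ) :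
    ∃ R : ℝ, ∀ z ∈ Ω, ∀ w, Reach k z w → ‖w‖ ≤ R := by
  obtain ⟨ρ, hρ⟩ := hΩ.isBounded.exists_norm_le
  obtain ⟨y, hy, hy'⟩ : ∃ y : ℝ, 0 < y ∧ ∀ z ∈ Ω, y ≤ z.im := by
    rcases Ω.eq_empty_or_nonempty with h | h
    · exact ⟨1, one_pos, by simp [h]⟩
    · obtain ⟨z₁, hz₁, h1⟩ := hΩ.exists_isMinOn h Complex.continuous_im.continuousOn
      exact ⟨z₁.im, hΩ' hz₁, fun z hz => h1 hz⟩
  exact ⟨_, fun z hz w hw => hw.bound (hρ z hz) (hy' z hz) hy⟩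

/-- **Discs.** -/
theorem disc2 (K : ℕ → ℝ) (hK : ∀ p, 0 ≤ K p) (z₀ : ℍ) (g : SL(2, ℤ)) (r : ℝ) (hr : 1 < 2 * r * (g • z₀).im)
    (Ω : Set ℂ) (hΩ : IsCompact Ω) (hΩ' : Ω ⊆ {z : ℂ | 0 < z.im}) :
    ∃ C : ℝ, ∃ k : ℕ, 0 < C ∧ Ctl K k C Ω (disc z₀ r) := by
  set z₁ : ℍ := g • z₀ with hz₁
  have hy := z₁.im_pos
  have hη0 : 0 < (r - 1 / (2 * z₁.im)) / 2 := by
    have : 1 / (2 * z₁.im) < r := by
      rw [div_lt_iff₀ (by positivity)]
      linarith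
    linarith
  set η : ℝ := (r - 1 / (2 * z₁.im)) / 2 with hη
  obtain ⟨C, k, hC, h⟩ := strip2 K hK η hη0 z₁.im hy Ω hΩ hΩ'
  obtain ⟨R, hR⟩ := norm_bound hΩ hΩ' k
  set l : ℕ := ⌈R + |z₁.re|⌉₊ + 1 with hl
  obtain ⟨e, he⟩ : ∃ e : ℕ, ∀ i j : Fin 2, |(g⁻¹ : SL(2, ℤ)) i j| ≤ (e : ℤ) := by
    refine ⟨∑ i, ∑ j, ((g⁻¹ : SL(2, ℤ)) i j).natAbs, fun i j => ?_⟩
    have h1 : ((g⁻¹ : SL(2, ℤ)) i j).natAbs ≤ ∑ j, ((g⁻¹ : SL(2, ℤ)) i j).natAbs :=
      Finset.single_le_sum (f := fun j => ((g⁻¹ : SL(2, ℤ)) i j).natAbs) (fun _ _ => Nat.zero_le _) (Finset.mem_univ j)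
    have h2 : ∑ j, ((g⁻¹ : SL(2, ℤ)) i j).natAbs ≤ ∑ i, ∑ j, ((g⁻¹ : SL(2, ℤ)) i j).natAbs :=
      Finset.single_le_sum (f := fun i => ∑ j, ((g⁻¹ : SL(2, ℤ)) i j).natAbs) (fun _ _ => Nat.zero_le _) (Finset.mem_univ i)
    have h3 := h1.trans h2
    rw [Int.abs_eq_natAbs]
    exact_mod_cast h3
  refine ⟨C, 2 * (2 * k * l) * e, hC, fun U hU z hz m hm hB => h U hU z hz m hm fun w hw hzw => ?_⟩
  have hz0 : 0 < z.im := hΩ' hz
  obtain ⟨hw1, hw2⟩ := hw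
  have hw0 : 0 < w.im := hy.trans hw1
  set n : ℤ := -round (w.re - z₁.re) with hn
  have hround : |(w.re - z₁.re) - round (w.re - z₁.re)| ≤ 1 / 2 := abs_sub_round _
  have hwR : |w.re| ≤ R := (Complex.abs_re_le_norm w).trans (hR z hz w hzw)
  have hnl : |n| ≤ l := by
    have h1 : |(round (w.re - z₁.re) : ℝ)| ≤ R + |z₁.re| + 1 / 2 := by
      have e1 : (round (w.re - z₁.re) : ℝ) = w.re - z₁.re - ((w.re - z₁.re) - round (w.re - z₁.re)) := by ring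
      rw [e1]
      calc |w.re - z₁.re - ((w.re - z₁.re) - round (w.re - z₁.re))|
          ≤ |w.re - z₁.re| + |(w.re - z₁.re) - round (w.re - z₁.re)| := abs_sub _ _
        _ ≤ (|w.re| + |z₁.re|) + 1 / 2 := by
          gcongr
          exact abs_sub _ _
        _ ≤ _ := by linarith
    have h2 : R + |z₁.re| ≤ ⌈R + |z₁.re|⌉₊ := Nat.le_ceil _
    have h3 : ((|round (w.re - z₁.re)| : ℤ) : ℝ) ≤ ((l : ℤ) : ℝ) := by
      rw [Int.cast_abs, hl]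
      push_cast
      linarith
    rw [hn, abs_neg]
    exact_mod_cast h3
  have hl1 : 1 ≤ l := by omega
  set v : ℂ := w + n with hv
  have hvim : v.im = w.im := by simp [hv]
  have hvre : v.re = w.re + n := by simp [hv]
  have hv0 : 0 < v.im := by rw [hvim]; exact hw0
  have r1 : Reach (2 * k * l) z v := hzw.trans hz0 (Reach.int hl1 hnl w)
  have hUv : U v = U w := hU.per.int n hw0
  -- `v` is in the disc with centre `z₁`
  have hd : dist (⟨v, hv0⟩ : ℍ) z₁ < r := by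
    have e1 : (⟨v, hv0⟩ : ℍ).im = v.im := rfl
    have e2 : (⟨v, hv0⟩ : ℍ).re = v.re := rfl
    refine (dist_bound' z₁ ⟨v, hv0⟩ (by rw [e1, hvim]; exact hw1.le)).trans_lt ?_
    rw [e1, e2, hvim]
    have h4 : Real.log w.im - Real.log z₁.im ≤ η := by
      rw [← Real.log_div hw0.ne' hy.ne']
      have h5 : w.im / z₁.im ≤ 1 + η := by
        rw [div_le_iff₀ hy]
        exact hw2.le
      have h7 := Real.log_le_sub_one_of_pos (div_pos hw0 hy)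
      linarith
    have h5 : |v.re - z₁.re| / z₁.im ≤ 1 / (2 * z₁.im) := by
      have h6 : |v.re - z₁.re| ≤ 1 / 2 := by
        have e3 : v.re - z₁.re = (w.re - z₁.re) - round (w.re - z₁.re) := by
          rw [hvre, hn]
          push_cast
          ring
        rw [e3]
        exact hround
      calc |v.re - z₁.re| / z₁.im ≤ (1 / 2) / z₁.im := by gcongr
        _ = 1 / (2 * z₁.im) := by rw [div_div]
    have h8 : η < r - 1 / (2 * z₁.im) := by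
      rw [hη] at hη0 ⊢
      linarith
    linarith
  -- the translate
  have hd' : dist (g⁻¹ • (⟨v, hv0⟩ : ℍ)) z₀ < r := by
    have e : dist (g⁻¹ • (⟨v, hv0⟩ : ℍ)) z₀ = dist (⟨v, hv0⟩ : ℍ) z₁ := by
      have h1 := dist_smul (Matrix.SpecialLinearGroup.map (Int.castRingHom ℝ) g) (g⁻¹ • (⟨v, hv0⟩ : ℍ)) z₀
      have e1 : ∀ v : ℍ, (Matrix.SpecialLinearGroup.map (Int.castRingHom ℝ) g) • v = g • v := fun v => rfl
      rw [e1, e1, smul_inv_smul] at h1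
      exact h1.symm
    rw [e]
    exact hd
  have r2 : Reach e v ((g⁻¹ • (⟨v, hv0⟩ : ℍ) : ℍ) : ℂ) := by
    refine ⟨(g⁻¹ : SL(2, ℤ)) 0 0, (g⁻¹ : SL(2, ℤ)) 0 1, (g⁻¹ : SL(2, ℤ)) 1 0, (g⁻¹ : SL(2, ℤ)) 1 1,
      he _ _, he _ _, he _ _, he _ _, ?_, ?_⟩
    · have := (g⁻¹ : SL(2, ℤ)).det_coe
      rw [Matrix.det_fin_two] at this
      rw [this]
      exact one_pos
    · rw [coe_specialLinearGroup_apply]
      simp
  have hfin := hB _ ⟨_, rfl, hd'⟩ (r1.trans hz0 r2)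
  rw [hU.smul g⁻¹ ⟨v, hv0⟩] at hfin
  have e3 : ((⟨v, hv0⟩ : ℍ) : ℂ) = v := rfl
  rw [e3, hUv] at hfin
  exact hfin

end Pool.Agent.U766.SN
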