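import Mathlib
import Pool.Agent.U766.SN.Chain

/-!
# Integrals of increasing functions of the absolute value
-/

set_option autoImplicit false

open UpperHalfPlane MeasureTheory
open scoped MatrixGroups ENNReal

namespace Pool.Agent.U766.SN

open Pool.Agent.N889.SN (mp)

/-- integral matrices of positive determinant with entries at most `k` -/
noncomputable def F (k : ℕ) : Finset (ℤ × ℤ × ℤ × ℤ) :=
  (Finset.Icc (-(k : ℤ)) k ×ˢ Finset.Icc (-(k : ℤ)) k ×ˢ Finset.Icc (-(k : ℤ)) k ×ˢ Finset.Icc (-(k : ℤ)) k).filter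
    fun q => 0 < q.1 * q.2.2.2 - q.2.1 * q.2.2.1

/-- the matrix -/
noncomputable def G (q : ℤ × ℤ × ℤ × ℤ) : GL (Fin 2) ℝ := by
  classical
  exact if h : 0 < q.1 * q.2.2.2 - q.2.1 * q.2.2.1 then
    Matrix.GeneralLinearGroup.mkOfDetNeZero !![(q.1 : ℝ), (q.2.1 : ℝ); (q.2.2.1 : ℝ), (q.2.2.2 : ℝ)] (by
      rw [Matrix.det_fin_two]
      simp only [Matrix.of_apply, Matrix.cons_val', Matrix.cons_val_zero, Matrix.cons_val_one, Matrix.cons_val_fin_one]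
      have : (0 : ℝ) < q.1 * q.2.2.2 - q.2.1 * q.2.2.1 := by exact_mod_cast h
      exact this.ne') else 1

lemma coe_G {q : ℤ × ℤ × ℤ × ℤ} (h : 0 < q.1 * q.2.2.2 - q.2.1 * q.2.2.1) (z : ℍ) :
    ((G q • z : ℍ) : ℂ) = (q.1 * z + q.2.1) / (q.2.2.1 * z + q.2.2.2) := by
  have hr : (0 : ℝ) < q.1 * q.2.2.2 - q.2.1 * q.2.2.1 := by exact_mod_cast h
  unfold G
  rw [dif_pos h, coe_smul_of_det_pos]
  · simp [num, denom, Matrix.GeneralLinearGroup.mkOfDetNeZero]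
  · simp [Matrix.GeneralLinearGroup.mkOfDetNeZero, Matrix.det_fin_two]
    linarith

lemma exists_G {k : ℕ} {z : ℍ} {w : ℂ} (h : Reach k z w) : ∃ q ∈ F k, ((G q • z : ℍ) : ℂ) = w := by
  obtain ⟨a, b, c, d, h1, h2, h3, h4, h5, rfl⟩ := h
  refine ⟨(a, b, c, d), ?_, coe_G h5 z⟩
  simp only [F, Finset.mem_filter, Finset.mem_product, Finset.mem_Icc]
  exact ⟨⟨abs_le.1 h1, abs_le.1 h2, abs_le.1 h3, abs_le.1 h4⟩, h5⟩

/-- **Integrals.** -/
theorem integ {K : ℕ → ℝ} {k : ℕ} {C : ℝ} {Ω : Set ℍ} (hΩ : MeasurableSet Ω) {z₀ : ℍ} {r : ℝ}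
    (h : Ctl K k C ((fun z : ℍ => (z : ℂ)) '' Ω) (disc z₀ r)) {U : ℂ → ℂ} (hU : Good K U)
    (hm : Measurable fun z : ℍ => ‖U z‖) (φ : ℝ → ℝ≥0∞) (hφ : Monotone φ) (hφ0 : φ 0 = 0) :
    ∫⁻ z in Ω, φ ‖U (z : ℍ)‖ ≤ (F k).card * ∫⁻ z in Metric.ball z₀ r, φ (C * ‖U (z : ℍ)‖) := by
  classical
  have hφm : Measurable φ := hφ.measurable
  have hball : MeasurableSet (Metric.ball z₀ r) := Metric.isOpen_ball.measurableSet
  let ψ : ℍ → ℝ≥0∞ := (Metric.ball z₀ r).indicator fun z => φ (C * ‖U z‖)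
  have hψ : Measurable ψ := (hφm.comp (hm.const_mul C)).indicator hball
  have hpt : ∀ z ∈ Ω, φ ‖U z‖ ≤ ∑ q ∈ F k, ψ (G q • z) := by
    intro z hz
    set S := (F k).filter fun q => G q • z ∈ Metric.ball z₀ r with hS
    rcases S.eq_empty_or_nonempty with hE | hE
    · have h1 := h U hU z ⟨z, hz, rfl⟩ 0 le_rfl (fun w hw hr => by
        obtain ⟨v, rfl, hv⟩ := hw
        obtain ⟨q, hq, hqv⟩ := exists_G hr
        exfalso
        have : q ∈ S := by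
          rw [hS, Finset.mem_filter]
          refine ⟨hq, ?_⟩
          rw [UpperHalfPlane.ext hqv]
          exact hv
        rw [hE] at this
        simp at this)
      rw [mul_zero] at h1
      rw [le_antisymm h1 (norm_nonneg _), hφ0]
      exact bot_le
    · obtain ⟨q₀, hq₀, hmax⟩ := S.exists_max_image (fun q => ‖U ((G q • z : ℍ) : ℂ)‖) hE
      have h1 := h U hU z ⟨z, hz, rfl⟩ ‖U ((G q₀ • z : ℍ) : ℂ)‖ (norm_nonneg _) (fun w hw hr => by
        obtain ⟨v, rfl, hv⟩ := hw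
        obtain ⟨q, hq, hqv⟩ := exists_G hr
        have hqS : q ∈ S := by
          rw [hS, Finset.mem_filter]
          refine ⟨hq, ?_⟩
          rw [UpperHalfPlane.ext hqv]
          exact hv
        have := hmax q hqS
        simp only [hqv] at this
        exact this)
      rw [hS, Finset.mem_filter] at hq₀
      calc φ ‖U z‖ ≤ φ (C * ‖U ((G q₀ • z : ℍ) : ℂ)‖) := hφ h1
        _ = ψ (G q₀ • z) := by
          show _ = (Metric.ball z₀ r).indicator _ _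
          rw [Set.indicator_of_mem hq₀.2]
        _ ≤ ∑ q ∈ F k, ψ (G q • z) := Finset.single_le_sum (f := fun q => ψ (G q • z)) (fun _ _ => bot_le) hq₀.1
  calc ∫⁻ z in Ω, φ ‖U (z : ℍ)‖ ≤ ∫⁻ z in Ω, ∑ q ∈ F k, ψ (G q • z) := setLIntegral_mono' hΩ hpt
    _ ≤ ∫⁻ z, ∑ q ∈ F k, ψ (G q • z) := setLIntegral_le_lintegral _ _
    _ = ∑ q ∈ F k, ∫⁻ z, ψ (G q • z) := lintegral_finsetSum _ fun q _ => hψ.comp (mp (G q)).measurable
    _ = ∑ q ∈ F k, ∫⁻ z, ψ z := Finset.sum_congr rfl fun q _ => (mp (G q)).lintegral_comp hψ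
    _ = (F k).card * ∫⁻ z in Metric.ball z₀ r, φ (C * ‖U (z : ℍ)‖) := by
      rw [Finset.sum_const, nsmul_eq_mul, lintegral_indicator hball]

end Pool.Agent.U766.SN
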